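import Pool.Agent.H25.M5.H1F
import Pool.Agent.H71.SLP.Stmts

/-!
# Row (H1F) of the slope law: the time is full given the line, on large events
-/

set_option autoImplicit false

namespace Pool.SLF

open Finset Real
open Pool.Agent.H49.Ent Pool.Agent.H32.Dense Pool.STK Pool.KA Pool.KSAT Pool.K2S Pool.PB

/-- The time is full given the line, on large events of the families of a class. -/
theorem st_time {m J : ℕ} {S : FCl m} {F : Fam m J} {τ : ℝ} {A : F.Ω → Prop}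
    (h : S.St τ F A) : 0 < Pe F.p A ∧ IsLaw (Pool.Agent.H49.Ent.cond F.p A True) ∧
      (J : ℝ) * Real.log 2 - 6 * (τ * J) ≤
        CH (Pool.Agent.H49.Ent.cond F.p A True) F.T (fun ω => (F.l ω, F.Z ω)) := by
  obtain ⟨hT, hA⟩ := h
  have hA0 : 0 < Pe F.p A := lt_of_lt_of_le (Real.exp_pos _) hA
  refine ⟨hA0, isLaw_cond F.isLaw hA0, ?_⟩
  have h1 := Pool.STPA.sub_Tm_of_reg (S.tr hT) (S.tm hT) (S.rb hT) hA0 hA
  unfold Fam.Tm at h1
  have h2 : CH (Pool.FLF.Fam.sub F A hA0).p (Pool.FLF.Fam.sub F A hA0).T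
      (fun ω => ((Pool.FLF.Fam.sub F A hA0).l ω, (Pool.FLF.Fam.sub F A hA0).Z ω)) =
      CH (Pool.Agent.H49.Ent.cond F.p A True) F.T (fun ω => (F.l ω, F.Z ω)) :=
    Pool.FLF.sub_marg.CH F.T (fun ω => (F.l ω, F.Z ω))
  rw [h2] at h1
  linarith

/-- **Row (H1F).** -/
theorem h1f_thm {k : ℕ} (S : FCl (k + 1)) : H1F S := by
  intro η hη
  refine Clg.base (η / 6) (by positivity) 0 fun J _ F A hA => ?_
  obtain ⟨_, h1, h2⟩ := st_time hA
  refine ⟨h1, ?_⟩
  have e : 6 * (η / 6 * (J : ℝ)) = η * J := by ring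
  rw [e] at h2
  exact h2

end Pool.SLF
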