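import Pool.Agent.H7.SLP.SHB
import Pool.Agent.H7.SLF.Base
import Pool.Agent.H92.M5.Crad
import Pool.Agent.H55.SLP.FST
import Pool.Agent.H89.BFL.JET
import Pool.Agent.H25.SLF.H1F

/-!
# Nestedness of the contexts (H2X2): pure part

The context of the box `(a, w)` given the context of the box `(a', w')`, `w' ≤ w`, `a ≤ a'`, and the
time. The digits of the section of the own sheet at the own time are known from the static box of
the radius `a`, the static box of the radius `a'` is known from the context `(a', w')`, and the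
coefficients of the label are known from the sections at `K + 1` times (FST).
-/

set_option autoImplicit false

namespace Pool.SLF

open Finset Real MvPolynomial
open Pool.Agent.H49.Ent Pool.Agent.H32.Dense Pool.STK Pool.KAF Pool.KA Pool.KSAT Pool.K2S
open Pool.PB Pool.SLO Pool.SLP Pool.KAL

section poly

variable {m : ℕ}

theorem fixt_monomial (i₁ : Fin m) (t : ℝ) (u : Fin m →₀ ℕ) (c : ℝ) :
    fixt i₁ t (monomial u c) = monomial (u.erase i₁) (c * t ^ u i₁) := by
  classical
  refine MvPolynomial.funext fun b => ?_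
  rw [eval_fixt, eval_monomial, eval_monomial, Finsupp.prod_fintype _ _ (fun i => pow_zero _),
    Finsupp.prod_fintype _ _ (fun i => pow_zero _),
    ← Finset.mul_prod_erase univ _ (Finset.mem_univ i₁),
    ← Finset.mul_prod_erase univ (fun i => b i ^ (Finsupp.erase i₁ u) i) (Finset.mem_univ i₁),
    Function.update_self, Finsupp.erase_same, pow_zero, one_mul, mul_assoc]
  congr 2
  refine Finset.prod_congr rfl fun i hi => ?_
  rw [Function.update_of_ne (Finset.ne_of_mem_erase hi),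
    Finsupp.erase_ne (Finset.ne_of_mem_erase hi)]

theorem fixt_sub (i₁ : Fin m) (t : ℝ) (P Q : MvPolynomial (Fin m) ℝ) :
    fixt i₁ t (P - Q) = fixt i₁ t P - fixt i₁ t Q := by
  unfold fixt
  rw [map_sub]

theorem fixt_sum (i₁ : Fin m) (t : ℝ) {ι : Type} (s : Finset ι)
    (P : ι → MvPolynomial (Fin m) ℝ) :
    fixt i₁ t (∑ i ∈ s, P i) = ∑ i ∈ s, fixt i₁ t (P i) := by
  unfold fixt
  rw [map_sum]

/-- **The coefficients of the section** at the time `t`. -/
theorem coeff_fixt (i₁ : Fin m) (t : ℝ) {K : ℕ} {G : MvPolynomial (Fin m) ℝ}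
    (hG : G.totalDegree ≤ K) {s : Fin m →₀ ℕ} (hs : s i₁ = 0) :
    coeff s (fixt i₁ t G) =
      ∑ a : Fin (K + 1), coeff (s + Finsupp.single i₁ (a : ℕ)) G * t ^ (a : ℕ) := by
  classical
  have h1 : fixt i₁ t G = ∑ u ∈ G.support, monomial (u.erase i₁) (coeff u G * t ^ u i₁) := by
    conv_lhs => rw [← support_sum_monomial_coeff G]
    rw [fixt_sum]
    refine Finset.sum_congr rfl fun u _ => ?_
    rw [fixt_monomial]
  rw [h1, coeff_sum]
  have h2 : ∀ u ∈ G.support, coeff s (monomial (u.erase i₁) (coeff u G * t ^ u i₁)) =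
      ∑ a : Fin (K + 1), if u = s + Finsupp.single i₁ (a : ℕ) then coeff u G * t ^ (a : ℕ)
        else 0 := by
    intro u hu
    have hu1 : u i₁ < K + 1 := by
      refine Nat.lt_succ_of_le (le_trans ?_ ((le_totalDegree hu).trans hG))
      by_cases hi : u i₁ = 0
      · rw [hi]
        exact Nat.zero_le _
      · exact Finset.single_le_sum (f := fun i => u i) (fun _ _ => Nat.zero_le _)
          (Finsupp.mem_support_iff.2 hi)
    rw [coeff_monomial]
    by_cases he : u.erase i₁ = s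
    · rw [if_pos he]
      rw [Finset.sum_eq_single (⟨u i₁, hu1⟩ : Fin (K + 1))]
      · rw [if_pos]
        simp only
        rw [← he]
        exact (Finsupp.erase_add_single i₁ u).symm
      · intro a _ ha
        rw [if_neg]
        intro h3
        refine ha (Fin.ext ?_)
        simp only
        have h4 := DFunLike.congr_fun h3 i₁
        rw [Finsupp.add_apply, hs, zero_add, Finsupp.single_eq_same] at h4
        exact h4.symm
      · intro h
        exact absurd (Finset.mem_univ _) h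
    · rw [if_neg he]
      symm
      refine Finset.sum_eq_zero fun a _ => ?_
      rw [if_neg]
      intro h3
      refine he ?_
      rw [h3]
      ext i
      by_cases hi : i = i₁
      · subst hi
        rw [Finsupp.erase_same, hs]
      · rw [Finsupp.erase_ne hi, Finsupp.add_apply, Finsupp.single_eq_of_ne hi, add_zero]
  rw [Finset.sum_congr rfl h2, Finset.sum_comm]
  refine Finset.sum_congr rfl fun a _ => ?_
  by_cases hm : s + Finsupp.single i₁ (a : ℕ) ∈ G.support
  · rw [Finset.sum_eq_single (s + Finsupp.single i₁ (a : ℕ))]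
    · rw [if_pos rfl]
    · intro u _ hu
      rw [if_neg hu]
    · intro h
      exact absurd hm h
  · rw [notMem_support_iff.1 hm, zero_mul]
    refine Finset.sum_eq_zero fun u hu => ?_
    rw [if_neg]
    intro h
    rw [h] at hu
    exact hm hu

/-- The exponents without the time. -/
noncomputable def mon0 (m K : ℕ) (i₁ : Fin m) : Finset (Fin m →₀ ℕ) :=
  (mons m K).filter fun s => s i₁ = 0

/-- The time part and the rest. -/
theorem split_mon {K : ℕ} (i₁ : Fin m) {s : Fin m →₀ ℕ} (hs : s ∈ mons m K) :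
    s.erase i₁ ∈ mon0 m K i₁ ∧ s i₁ < K + 1 ∧
      s = s.erase i₁ + Finsupp.single i₁ (s i₁) := by
  classical
  have h1 := mem_mons.1 hs
  have h2 : s i₁ ≤ s.sum fun _ e => e := by
    by_cases hi : s i₁ = 0
    · rw [hi]
      exact Nat.zero_le _
    · exact Finset.single_le_sum (f := fun i => s i) (fun _ _ => Nat.zero_le _)
        (Finsupp.mem_support_iff.2 hi)
  refine ⟨?_, by omega, (Finsupp.erase_add_single i₁ s).symm⟩
  unfold mon0
  rw [Finset.mem_filter]
  refine ⟨?_, Finsupp.erase_same⟩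
  rw [mem_mons]
  refine le_trans ?_ h1
  conv_rhs => rw [← Finsupp.erase_add_single i₁ s]
  rw [Finsupp.sum_add_index' (fun _ => rfl) (fun _ _ _ => rfl)]
  exact Nat.le_add_right _ _

end poly

section fam

variable {m J : ℕ}

/-- The corner and the velocity of the box as functions of the line and of the window. -/
noncomputable def cwL {ζ : Type} (i₁ : Fin m) (a w : ℕ)
    (l : ((Fin m → ℝ) × (Fin m → ℝ)) × ζ × ℕ) : Fin m → ℝ := fun j =>
  if j = i₁ then (l.2.2 : ℝ) / 2 ^ w else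
    (⌊(2 : ℝ) ^ a * (l.1.1 j + (l.2.2 : ℝ) / 2 ^ w * l.1.2 j)⌋ : ℝ) / 2 ^ a

noncomputable def dqL {ζ : Type} (i₁ : Fin m) (q : ℕ)
    (l : ((Fin m → ℝ) × (Fin m → ℝ)) × ζ × ℕ) : Fin m → ℝ := fun j =>
  if j = i₁ then 0 else (⌊(2 : ℝ) ^ q * l.1.2 j⌋ : ℝ) / 2 ^ q

/-- The label in the box, as a function of the line and of the window. -/
noncomputable def plL {ζ : Type} (i₁ : Fin m) (a w q : ℕ)
    (H : ((Fin m → ℝ) × (Fin m → ℝ)) × ζ × ℕ → MvPolynomial (Fin m) ℝ)
    (l : ((Fin m → ℝ) × (Fin m → ℝ)) × ζ × ℕ) : MvPolynomial (Fin m) ℝ :=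
  pull i₁ a w (cwL i₁ a w l) (dqL i₁ q l) (H l)

theorem plL_eq (F : Fam m J) (i₁ : Fin m) (a w q : ℕ)
    (H : ((Fin m → ℝ) × (Fin m → ℝ)) × F.ζ × ℕ → MvPolynomial (Fin m) ℝ) (ω : F.Ω) :
    plL i₁ a w q H (slam F w ω) = plb F i₁ a w q ω (H (slam F w ω)) := rfl

/-- The own sheet and the label have close sections at the own time. -/
theorem sect_close (m K : ℕ) : ∃ C : ℝ, 1 ≤ C ∧ ∀ (J : ℕ) (F : Fam m J) (i₁ : Fin m)
    (a w q P : ℕ) (C0 : ℝ) (G : F.Ω → MvPolynomial (Fin m) ℝ)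
    (H : ((Fin m → ℝ) × (Fin m → ℝ)) × F.ζ × ℕ → MvPolynomial (Fin m) ℝ) (ω : F.Ω),
    w ≤ J → (G ω).totalDegree ≤ K → (H (slam F w ω)).totalDegree ≤ K →
    NearB F i₁ a w q K P P C0 G H ω → ∀ s,
    |coeff s (fixt i₁ (F.tw w ω) (plb F i₁ a w q ω (G ω))) -
      coeff s (fixt i₁ (F.tw w ω) (plb F i₁ a w q ω (H (slam F w ω))))| ≤
      C * ((C0 + (mons m K).card) / 2 ^ P) := by
  obtain ⟨C, hC, hcube⟩ := Pool.SLP.coef_cube m K
  refine ⟨C, hC, ?_⟩
  intro J F i₁ a w q P C0 G H ω hw hG hH hnear s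
  rw [← coeff_sub, ← fixt_sub]
  refine (abs_coeff_le _ _).trans (hcube _ _ (fun _ => 0) ?_ (fun _ => by simp) ?_)
  · refine (totalDegree_fixt_le _ _ _).trans ((totalDegree_sub _ _).trans (max_le ?_ ?_))
    · exact (totalDegree_pull_le _ _ _ _ _ _).trans hG
    · exact (totalDegree_pull_le _ _ _ _ _ _).trans hH
  · intro y hy
    have ht := tw_mem' F hw ω
    rw [eval_fixt, map_sub]
    have hb : ∀ j, 0 ≤ Function.update y i₁ (F.tw w ω) j ∧
        Function.update y i₁ (F.tw w ω) j ≤ 1 := by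
      intro j
      by_cases hj : j = i₁
      · subst hj
        rw [Function.update_self]
        exact ⟨ht.1, ht.2.le⟩
      · rw [Function.update_of_ne hj]
        have := hy j
        simp only [zero_add] at this
        exact this
    have h1 := hnear _ hb (Function.update_self _ _ _)
    have h2 := abs_rdp_le (K := K) (P := P) (G := plb F i₁ a w q ω (H (slam F w ω)))
      ((totalDegree_pull_le _ _ _ _ _ _).trans hH)
      (b := Function.update y i₁ (F.tw w ω)) (fun i => by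
        rw [abs_of_nonneg (hb i).1]
        exact (hb i).2)
    unfold Rc at h1
    obtain ⟨b, hbb⟩ : ∃ b, b = Function.update y i₁ (F.tw w ω) := ⟨_, rfl⟩
    rw [← hbb] at h1 h2 ⊢
    obtain ⟨x1, hx1⟩ : ∃ x1, x1 = eval b (plb F i₁ a w q ω (G ω)) := ⟨_, rfl⟩
    obtain ⟨x2, hx2⟩ : ∃ x2, x2 = eval b (plb F i₁ a w q ω (H (slam F w ω))) := ⟨_, rfl⟩
    rw [← hx1] at h1 ⊢
    rw [← hx2] at h2 ⊢
    rw [add_div]
    rw [abs_le] at h1 h2 ⊢
    constructor <;> linarith [h1.1, h1.2, h2.1, h2.2]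

/-- Two samples with the same static box, the same moving box and the same time have close
sections. -/
theorem sect_two (m K : ℕ) : ∃ C : ℝ, 1 ≤ C ∧ ∀ (J : ℕ) (F : Fam m J) (i₁ : Fin m)
    (a w q P : ℕ) (G : F.Ω → MvPolynomial (Fin m) ℝ) (ω ω' : F.Ω),
    w ≤ J → a ≤ w + q → (G ω).totalDegree ≤ K → (G ω').totalDegree ≤ K →
    SLP.bxs F i₁ a P K G 0 ω = SLP.bxs F i₁ a P K G 0 ω' → cw F i₁ a w ω = cw F i₁ a w ω' →
    dq F i₁ q ω = dq F i₁ q ω' → F.tw w ω = F.tw w ω' → F.W ω = F.W ω' → ∀ s,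
    |coeff s (fixt i₁ (F.tw w ω) (plb F i₁ a w q ω (G ω))) -
      coeff s (fixt i₁ (F.tw w ω') (plb F i₁ a w q ω' (G ω')))| ≤ C / 2 ^ P := by
  obtain ⟨C, hC, hcube⟩ := Pool.SLP.coef_cube m K
  obtain ⟨M, hM⟩ : ∃ M : ℝ, M = (mons m K).card * 5 ^ K + 1 := ⟨_, rfl⟩
  have hM1 : 1 ≤ M := by
    rw [hM]
    have : (0 : ℝ) ≤ (mons m K).card * 5 ^ K := by positivity
    linarith
  refine ⟨C * M, by nlinarith, ?_⟩
  intro J F i₁ a w q P G ω ω' hw hq hG hG' hbx hcw hdq htw hW s
  rw [← htw, ← coeff_sub, ← fixt_sub, mul_div_assoc]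
  refine (abs_coeff_le _ _).trans (hcube _ _ (fun _ => 0) ?_ (fun _ => by simp) ?_)
  · refine (totalDegree_fixt_le _ _ _).trans ((totalDegree_sub _ _).trans (max_le ?_ ?_))
    · exact (totalDegree_pull_le _ _ _ _ _ _).trans hG
    · exact (totalDegree_pull_le _ _ _ _ _ _).trans hG'
  · intro y hy
    have ht := tw_mem' F hw ω
    have htt : F.t ω = F.t ω' := by
      have : F.T ω = F.T ω' := (Prod.ext_iff.1 hW).1
      unfold Fam.t
      rw [this]
    rw [eval_fixt, map_sub]
    have hb : ∀ j, 0 ≤ Function.update y i₁ (F.tw w ω) j ∧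
        Function.update y i₁ (F.tw w ω) j ≤ 1 := by
      intro j
      by_cases hj : j = i₁
      · subst hj
        rw [Function.update_self]
        exact ⟨ht.1, ht.2.le⟩
      · rw [Function.update_of_ne hj]
        have := hy j
        simp only [zero_add] at this
        exact this
    obtain ⟨b, hbb⟩ : ∃ b, b = Function.update y i₁ (F.tw w ω) := ⟨_, rfl⟩
    have hb1 : b i₁ = F.tw w ω := by rw [hbb, Function.update_self]
    rw [← hbb] at hb ⊢
    obtain ⟨z, hz⟩ : ∃ z, z = Function.update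
      (sb i₁ a w (cw F i₁ a w ω) (dq F i₁ q ω) b) i₁ 0 := ⟨_, rfl⟩
    have hsbt : sb i₁ a w (cw F i₁ a w ω) (dq F i₁ q ω) b i₁ = F.t ω := by
      unfold sb cw
      rw [if_pos rfl, if_pos rfl, hb1]
      exact t_split F w ω
    have hup : Function.update z i₁ (F.t ω) =
        sb i₁ a w (cw F i₁ a w ω) (dq F i₁ q ω) b := by
      rw [hz, Function.update_idem, ← hsbt, Function.update_eq_self]
    have e1 : eval b (plb F i₁ a w q ω (G ω)) = gfn F i₁ G ω z := by
      unfold plb gfn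
      rw [eval_pull, hup]
    have e2 : eval b (plb F i₁ a w q ω' (G ω')) = gfn F i₁ G ω' z := by
      unfold plb gfn
      rw [eval_pull, ← hcw, ← hdq, ← htt, hup]
    rw [e1, e2]
    unfold SLP.bxs sbx at hbx
    have g1 := Prod.ext_iff.1 hbx
    have g2 := Prod.ext_iff.1 g1.2
    have g3 := Prod.ext_iff.1 g2.2
    have g4 : tdg i₁ a F.x ω = tdg i₁ a F.x ω' := g2.1
    have g5 : ⌊(2 : ℝ) ^ P * gfn F i₁ G ω (tco i₁ a F.x ω)⌋ =
        ⌊(2 : ℝ) ^ P * gfn F i₁ G ω' (tco i₁ a F.x ω')⌋ := g3.1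
    have g6 : Sc F i₁ a P K G 0 ω = Sc F i₁ a P K G 0 ω' := g3.2
    rw [hM]
    refine SLP.Crd.ball_diff F i₁ G (le_refl a) (by rw [Nat.sub_self, Nat.mul_zero]) hG hG' g4 g5
      g6 z ?_
    intro j
    have h0 : (0 : ℝ) < 2 ^ a := by positivity
    by_cases hj : j = i₁
    · subst hj
      rw [hz, Function.update_self]
      unfold tco tdg
      rw [if_pos rfl, Int.cast_zero, zero_div, sub_zero, abs_zero]
      positivity
    · rw [hz, Function.update_of_ne hj]
      have h1 := sb_near F i₁ hw hq ω hb hb1 j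
      have h2 := tps_tco i₁ a F.x ω j
      unfold tps at h2
      rw [if_neg hj] at h2
      unfold bp at h1
      rw [Function.update_of_ne hj] at h1
      have h3 : (5 : ℝ) / 2 ^ a = 2 / 2 ^ a + 1 / 2 ^ a + 2 / 2 ^ a := by ring
      have h4 : (0 : ℝ) ≤ 2 / 2 ^ a := by positivity
      rw [h3]
      obtain ⟨x1, hx1⟩ : ∃ x1, x1 = sb i₁ a w (cw F i₁ a w ω) (dq F i₁ q ω) b j := ⟨_, rfl⟩
      rw [← hx1] at h1 ⊢
      rw [abs_le] at h1 h2 ⊢
      constructor <;> linarith [h1.1, h1.2, h2.1, h2.2]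

/-- The cell at the beginning of the window from the context of a longer window. -/
theorem clp_ctx {F : Fam m J} {p : F.Ω → ℝ} (hp : IsLaw p) (i₁ : Fin m) {a w a' w' q : ℕ}
    (hw : w ≤ J) (hww : w' ≤ w) (haa : a ≤ a') (hq : a' ≤ w' + q) (P : ℕ)
    (H : ((Fin m → ℝ) × (Fin m → ℝ)) × F.ζ × ℕ → MvPolynomial (Fin m) ℝ) :
    CH p (clp F i₁ a w) (fun ω => (ctx F i₁ a' w' q P H ω, F.W ω)) ≤ m * Real.log 9 := by
  have h0 : (0 : ℝ) < 2 ^ a := by positivity
  refine (CH_le_vec hp.nonneg hp.sum_one _ _ (fun _ => 4) ?_).trans ?_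
  · intro ω ω' _ _ he i
    have k3 := ctx_ext (Prod.ext_iff.1 he).1
    have k4 : F.W ω = F.W ω' := (Prod.ext_iff.1 he).2
    have kT : F.T ω = F.T ω' := (Prod.ext_iff.1 k4).1
    have kT1 : F.T1 w ω = F.T1 w ω' := by
      unfold Fam.T1
      rw [kT]
    unfold clp
    by_cases hi : i = i₁
    · rw [if_pos hi, if_pos hi]
      norm_num
    · rw [if_neg hi, if_neg hi]
      refine (Pool.OCT.floor_diff (L := 3) ?_).trans (by norm_num)
      -- the positions at the beginning of the long window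
      have hc := congrFun k3.2.1 i
      have hd := congrFun k3.2.2.1 i
      unfold clp at hc
      unfold cld at hd
      rw [if_neg hi, if_neg hi] at hc hd
      have a1 := Pool.OCT.floor_eq_near hc
      have a2 := Pool.OCT.floor_eq_near hd
      have p1 : (0 : ℝ) < 2 ^ a' := by positivity
      have p2 : (0 : ℝ) < 2 ^ q := by positivity
      rw [← mul_sub, abs_mul, abs_of_pos p1] at a1
      rw [← mul_sub, abs_mul, abs_of_pos p2] at a2
      have b1 : |F.x1 w' ω i - F.x1 w' ω' i| ≤ 1 / 2 ^ a' := by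
        rw [le_div_iff₀ p1, mul_comm]
        exact a1
      have b2 : |F.d ω i - F.d ω' i| ≤ 1 / 2 ^ q := by
        rw [le_div_iff₀ p2, mul_comm]
        exact a2
      -- the beginning of the short window
      have hT' : F.T1 w' ω = F.T1 w' ω' := k3.1
      have hx : ∀ ω₁ : F.Ω, F.x1 w ω₁ i = F.x1 w' ω₁ i +
          ((F.T1 w ω₁ : ℝ) / 2 ^ w - (F.T1 w' ω₁ : ℝ) / 2 ^ w') * F.d ω₁ i := by
        intro ω₁
        unfold Fam.x1
        ring
      have hdt : |(F.T1 w ω : ℝ) / 2 ^ w - (F.T1 w' ω : ℝ) / 2 ^ w'| ≤ 2 / 2 ^ w' := by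
        have c1 := T1_real F hw ω
        have c2 := T1_real F (hww.trans hw) ω
        have p3 : (0 : ℝ) < 2 ^ w := by positivity
        have p4 : (0 : ℝ) < 2 ^ w' := by positivity
        have c3 : |(F.T1 w ω : ℝ) / 2 ^ w - F.t ω| ≤ 1 / 2 ^ w := by
          have e : (F.T1 w ω : ℝ) / 2 ^ w - F.t ω = (F.T1 w ω - 2 ^ w * F.t ω) / 2 ^ w := by
            field_simp
          rw [e, abs_div, abs_of_pos p3]
          refine div_le_div_of_nonneg_right ?_ p3.le
          rw [abs_le]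
          constructor <;> linarith [c1.1, c1.2]
        have c4 : |(F.T1 w' ω : ℝ) / 2 ^ w' - F.t ω| ≤ 1 / 2 ^ w' := by
          have e : (F.T1 w' ω : ℝ) / 2 ^ w' - F.t ω = (F.T1 w' ω - 2 ^ w' * F.t ω) / 2 ^ w' := by
            field_simp
          rw [e, abs_div, abs_of_pos p4]
          refine div_le_div_of_nonneg_right ?_ p4.le
          rw [abs_le]
          constructor <;> linarith [c2.1, c2.2]
        have c5 : (1 : ℝ) / 2 ^ w ≤ 1 / 2 ^ w' :=
          one_div_le_one_div_of_le p4 (pow_le_pow_right₀ (by norm_num) hww)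
        have c6 : (2 : ℝ) / 2 ^ w' = 1 / 2 ^ w' + 1 / 2 ^ w' := by ring
        rw [c6]
        rw [abs_le] at c3 c4 ⊢
        constructor <;> linarith [c3.1, c3.2, c4.1, c4.2]
      have hdiff : F.x1 w ω i - F.x1 w ω' i = (F.x1 w' ω i - F.x1 w' ω' i) +
          ((F.T1 w ω : ℝ) / 2 ^ w - (F.T1 w' ω : ℝ) / 2 ^ w') * (F.d ω i - F.d ω' i) := by
        rw [hx ω, hx ω', ← kT1, ← hT']
        ring
      rw [← mul_sub, abs_mul, abs_of_pos h0, hdiff]
      have d1 : |((F.T1 w ω : ℝ) / 2 ^ w - (F.T1 w' ω : ℝ) / 2 ^ w') * (F.d ω i - F.d ω' i)| ≤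
          2 / 2 ^ a' := by
        rw [abs_mul]
        calc _ ≤ 2 / 2 ^ w' * (1 / 2 ^ q) :=
              mul_le_mul hdt b2 (abs_nonneg _) (by positivity)
          _ = 2 / 2 ^ (w' + q) := by
              rw [pow_add]
              field_simp
          _ ≤ 2 / 2 ^ a' := by
              refine div_le_div_of_nonneg_left (by norm_num) p1 ?_
              exact pow_le_pow_right₀ (by norm_num) hq
      have d2 : (1 : ℝ) / 2 ^ a' ≤ 1 / 2 ^ a :=
        one_div_le_one_div_of_le h0 (pow_le_pow_right₀ (by norm_num) haa)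
      have d3 : |(F.x1 w' ω i - F.x1 w' ω' i) +
          ((F.T1 w ω : ℝ) / 2 ^ w - (F.T1 w' ω : ℝ) / 2 ^ w') * (F.d ω i - F.d ω' i)| ≤
          3 / 2 ^ a := by
        refine (abs_add_le _ _).trans ((add_le_add b1 d1).trans ?_)
        have e : (3 : ℝ) / 2 ^ a = 1 / 2 ^ a + 2 * (1 / 2 ^ a) := by ring
        have e' : (2 : ℝ) / 2 ^ a' = 2 * (1 / 2 ^ a') := by ring
        rw [e, e']
        linarith
      calc (2 : ℝ) ^ a * _ ≤ 2 ^ a * (3 / 2 ^ a) := mul_le_mul_of_nonneg_left d3 h0.le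
        _ = 3 := by field_simp
  · rw [Ex_const hp.sum_one]
    have e : (2 : ℝ) * 4 + 1 = 9 := by norm_num
    rw [e]

end fam

end Pool.SLF
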