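import Pool.Agent.H25.SLF.NestA

/-!
# Nestedness of the contexts (H2X2): the entropy inequality
-/

set_option autoImplicit false

namespace Pool.SLF

open Finset Real MvPolynomial
open Pool.Agent.H49.Ent Pool.Agent.H32.Dense Pool.STK Pool.KAF Pool.KA Pool.KSAT Pool.K2S
open Pool.PB Pool.SLO Pool.SLP Pool.KAL

variable {m J : ℕ}

theorem CH_tri3 {Ω S T U : Type} [Fintype Ω] {p : Ω → ℝ} (hp : ∀ ω, 0 ≤ p ω) (X : Ω → S)
    (Y : Ω → T) (Z : Ω → U) : CH p X Z ≤ CH p X Y + CH p Y Z := by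
  have h1 := CH_le_add hp X Y Z
  have h2 : CH p X (fun ω => (Y ω, Z ω)) ≤ CH p X Y :=
    CH_mono_cond hp fun ω ω' _ _ h => (Prod.ext_iff.1 h).1
  linarith only [h1, h2]

/-- The time in the window. -/
theorem tw_mod (F : Fam m J) {w : ℕ} (hw : w ≤ J) (ω : F.Ω) :
    F.tw w ω = ((F.T ω % 2 ^ (J - w) : ℕ) : ℝ) / 2 ^ (J - w) := by
  unfold Fam.tw Fam.T1 Fam.t
  have h1 : (F.T ω : ℝ) = 2 ^ (J - w) * ((F.T ω / 2 ^ (J - w) : ℕ) : ℝ) +
      ((F.T ω % 2 ^ (J - w) : ℕ) : ℝ) := by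
    exact_mod_cast (Nat.div_add_mod (F.T ω) (2 ^ (J - w))).symm
  have h2 : (2 : ℝ) ^ J = 2 ^ w * 2 ^ (J - w) := by
    rw [← pow_add]
    congr 1
    omega
  obtain ⟨x, hx⟩ : ∃ x : ℝ, x = ((F.T ω / 2 ^ (J - w) : ℕ) : ℝ) := ⟨_, rfl⟩
  obtain ⟨y, hy⟩ : ∃ y : ℝ, y = ((F.T ω % 2 ^ (J - w) : ℕ) : ℝ) := ⟨_, rfl⟩
  rw [← hx, ← hy] at h1
  rw [h1, h2, ← hx, ← hy]
  field_simp
  ring

/-- The values of the contexts. -/
abbrev Cxv (F : Fam m J) : Type :=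
  ((ℕ × ((Fin m → ℤ) × (Fin m → ℤ))) × ((Fin m →₀ ℕ) → ℤ)) × F.ζ

/-- The digits of the section of the own sheet at the own time, with a shift. -/
noncomputable def sdg (F : Fam m J) (i₁ : Fin m) (a w q K P : ℕ)
    (G : F.Ω → MvPolynomial (Fin m) ℝ)
    (n : ((Fin m → ℝ) × (Fin m → ℝ)) × F.ζ × ℕ → ℤ) (ω : F.Ω) (s : ↥(mon0 m K i₁)) : ℤ :=
  hz P (fixt i₁ (F.tw w ω) (plb F i₁ a w q ω (G ω))) s -
    (if (s : Fin m →₀ ℕ) = 0 then 2 ^ P * n (slam F w ω) else 0)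

/-- The coefficients of the label with the shift. -/
noncomputable def hcf {ζ : Type} (i₁ : Fin m) (a w q K : ℕ)
    (H : ((Fin m → ℝ) × (Fin m → ℝ)) × ζ × ℕ → MvPolynomial (Fin m) ℝ)
    (n : ((Fin m → ℝ) × (Fin m → ℝ)) × ζ × ℕ → ℤ)
    (l : ((Fin m → ℝ) × (Fin m → ℝ)) × ζ × ℕ) (s : ↥(mon0 m K i₁)) (b : Fin (K + 1)) : ℝ :=
  coeff ((s : Fin m →₀ ℕ) + Finsupp.single i₁ (b : ℕ)) (plL i₁ a w q H l) -
    (if (s : Fin m →₀ ℕ) + Finsupp.single i₁ (b : ℕ) = 0 then (n l : ℝ) else 0)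

theorem add_single_eq_zero {i₁ : Fin m} {s : Fin m →₀ ℕ} {b : ℕ} :
    s + Finsupp.single i₁ b = 0 ↔ s = 0 ∧ b = 0 := by
  constructor
  · intro h
    have h1 : ∀ i, s i + (Finsupp.single i₁ b) i = 0 := fun i => by
      have := DFunLike.congr_fun h i
      simpa using this
    have h2 : s = 0 := by
      ext i
      have := h1 i
      simp only [Finsupp.coe_zero, Pi.zero_apply]
      omega
    refine ⟨h2, ?_⟩
    have := h1 i₁
    rw [Finsupp.single_eq_same] at this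
    omega
  · rintro ⟨rfl, rfl⟩
    simp

/-- The digits of the section are close to the polynomial in the time. -/
theorem sdg_near (m K : ℕ) : ∃ C : ℝ, 1 ≤ C ∧ ∀ (J : ℕ) (F : Fam m J) (i₁ : Fin m)
    (a w q P : ℕ) (C0 : ℝ) (G : F.Ω → MvPolynomial (Fin m) ℝ)
    (H : ((Fin m → ℝ) × (Fin m → ℝ)) × F.ζ × ℕ → MvPolynomial (Fin m) ℝ)
    (n : ((Fin m → ℝ) × (Fin m → ℝ)) × F.ζ × ℕ → ℤ) (ω : F.Ω),
    w ≤ J → (G ω).totalDegree ≤ K → (H (slam F w ω)).totalDegree ≤ K →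
    NearB F i₁ a w q K P P C0 G H ω → ∀ s : ↥(mon0 m K i₁),
    |(sdg F i₁ a w q K P G n ω s : ℝ) - 2 ^ P * ∑ b : Fin (K + 1),
      hcf i₁ a w q K H n (slam F w ω) s b *
        (((F.T ω % 2 ^ (J - w) : ℕ) : ℝ) / 2 ^ (J - w)) ^ (b : ℕ)| ≤
      1 + C * (C0 + (mons m K).card) := by
  obtain ⟨C, hC, hsec⟩ := sect_close m K
  refine ⟨C, hC, ?_⟩
  intro J F i₁ a w q P C0 G H n ω hw hG hH hnear s
  have h1 := hsec J F i₁ a w q P C0 G H ω hw hG hH hnear (s : Fin m →₀ ℕ)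
  have hs0 : (s : Fin m →₀ ℕ) i₁ = 0 := (Finset.mem_filter.1 s.2).2
  rw [← tw_mod F hw]
  have h2 := coeff_fixt i₁ (F.tw w ω) (K := K)
    (G := plb F i₁ a w q ω (H (slam F w ω))) ((totalDegree_pull_le _ _ _ _ _ _).trans hH) hs0
  have hP : (0 : ℝ) < 2 ^ P := by positivity
  have h3 : ∑ b : Fin (K + 1), hcf i₁ a w q K H n (slam F w ω) s b * F.tw w ω ^ (b : ℕ) =
      coeff (s : Fin m →₀ ℕ) (fixt i₁ (F.tw w ω) (plb F i₁ a w q ω (H (slam F w ω)))) -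
        (if (s : Fin m →₀ ℕ) = 0 then (n (slam F w ω) : ℝ) else 0) := by
    rw [h2]
    have h4 : ∀ b : Fin (K + 1), hcf i₁ a w q K H n (slam F w ω) s b * F.tw w ω ^ (b : ℕ) =
        coeff ((s : Fin m →₀ ℕ) + Finsupp.single i₁ (b : ℕ))
          (plb F i₁ a w q ω (H (slam F w ω))) * F.tw w ω ^ (b : ℕ) -
        (if b = 0 then (if (s : Fin m →₀ ℕ) = 0 then (n (slam F w ω) : ℝ) else 0) else 0) := by
      intro b
      unfold hcf
      rw [plL_eq, sub_mul]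
      congr 1
      by_cases hb : b = 0
      · rw [if_pos hb, hb]
        by_cases hs : (s : Fin m →₀ ℕ) = 0
        · rw [if_pos hs, if_pos (add_single_eq_zero.2 ⟨hs, by simp⟩)]
          simp
        · rw [if_neg hs, if_neg (fun h => hs (add_single_eq_zero.1 h).1), zero_mul]
      · rw [if_neg hb, if_neg, zero_mul]
        intro h
        refine hb (Fin.ext ?_)
        rw [(add_single_eq_zero.1 h).2]
        rfl
    rw [Finset.sum_congr rfl fun b _ => h4 b, Finset.sum_sub_distrib, Finset.sum_ite_eq']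
    simp
  rw [h3]
  obtain ⟨x, hx⟩ : ∃ x : ℝ, x = coeff (s : Fin m →₀ ℕ)
    (fixt i₁ (F.tw w ω) (plb F i₁ a w q ω (G ω))) := ⟨_, rfl⟩
  obtain ⟨y, hy⟩ : ∃ y : ℝ, y = coeff (s : Fin m →₀ ℕ)
    (fixt i₁ (F.tw w ω) (plb F i₁ a w q ω (H (slam F w ω)))) := ⟨_, rfl⟩
  obtain ⟨z, hz'⟩ : ∃ z : ℝ, z = if (s : Fin m →₀ ℕ) = 0 then (n (slam F w ω) : ℝ) else 0 :=
    ⟨_, rfl⟩
  have h5 : (sdg F i₁ a w q K P G n ω s : ℝ) = (⌊(2 : ℝ) ^ P * x⌋ : ℝ) - 2 ^ P * z := by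
    unfold sdg hz
    rw [hx, hz']
    push_cast
    split_ifs <;> simp
  rw [← hx, ← hy] at h1
  rw [← hy, ← hz', h5]
  have h6 := Int.floor_le ((2 : ℝ) ^ P * x)
  have h7 := Int.lt_floor_add_one ((2 : ℝ) ^ P * x)
  have h8 : |(2 : ℝ) ^ P * (x - y)| ≤ C * (C0 + (mons m K).card) := by
    rw [abs_mul, abs_of_pos hP]
    refine (mul_le_mul_of_nonneg_left h1 hP.le).trans (le_of_eq ?_)
    field_simp
  rw [abs_le] at h8 ⊢
  constructor <;> linarith [h8.1, h8.2]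

/-- The digits of the section from the static boxes. -/
theorem sdg_ent (m K : ℕ) (C0 : ℝ) (hC0 : 0 ≤ C0) : ∃ C : ℝ, 0 ≤ C ∧ ∀ (J : ℕ) (F : Fam m J)
    (i₁ : Fin m) (p : F.Ω → ℝ) (a w a' w' q P : ℕ)
    (G G' : F.Ω → MvPolynomial (Fin m) ℝ)
    (H' : ((Fin m → ℝ) × (Fin m → ℝ)) × F.ζ × ℕ → MvPolynomial (Fin m) ℝ)
    (n : ((Fin m → ℝ) × (Fin m → ℝ)) × F.ζ × ℕ → ℤ),
    IsLaw p → w ≤ J → w' ≤ w → a ≤ a' → a' ≤ w' + q →
    (∀ ω, 0 < p ω → (G ω).totalDegree ≤ K) → (∀ ω, 0 < p ω → (G' ω).totalDegree ≤ K) →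
    (∀ ω, 0 < p ω → SLP.NearB F i₁ a' w' q K P P C0 G' H' ω) →
    CH p (sdg F i₁ a w q K P G n)
      (fun ω => (n (slam F w ω), (ctx F i₁ a' w' q P H' ω, F.W ω))) ≤
      CH p (SLP.bxs F i₁ a P K G 0) (SLP.bxs F i₁ a' P K G' 0) + C := by
  classical
  obtain ⟨C₂, hC₂, hbox⟩ := SLP.box_of_ctx' m K
  obtain ⟨C₃, hC₃, htwo⟩ := sect_two m K
  obtain ⟨k1, hk1⟩ : ∃ k1 : ℝ, k1 = m * Real.log 7 +
      (mons m K).card * Real.log (2 * (C₂ * C0 + 1) + 1) := ⟨_, rfl⟩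
  have hk1' : 0 ≤ k1 := by
    rw [hk1]
    have h1 : 0 ≤ Real.log 7 := Real.log_nonneg (by norm_num)
    have h2 : 0 ≤ Real.log (2 * (C₂ * C0 + 1) + 1) := by
      refine Real.log_nonneg ?_
      have : 0 ≤ C₂ * C0 := by positivity
      linarith only [this]
    positivity
  have hl9 : 0 ≤ Real.log 9 := Real.log_nonneg (by norm_num)
  have hc3 : 0 ≤ Real.log (2 * (C₃ + 1) + 1) := Real.log_nonneg (by linarith only [hC₃])
  refine ⟨(mons m K).card * Real.log (2 * (C₃ + 1) + 1) + k1 + m * Real.log 9, by positivity, ?_⟩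
  intro J F i₁ p a w a' w' q P G G' H' n hp hw hww haa hq hG hG' hnear'
  have hnn := hp.nonneg
  have b1 := hbox J F i₁ p a' w' q P P C0 G' H' hp (hww.trans hw) hq hC0 hG' hnear'
  rw [← hk1] at b1
  have b2 := clp_ctx hp i₁ hw hww haa hq P H'
  obtain ⟨W', hW'⟩ : ∃ W' : F.Ω → ℤ × (Cxv F × (ℕ × F.ζ)),
      W' = fun ω => (n (slam F w ω), (ctx F i₁ a' w' q P H' ω, F.W ω)) := ⟨_, rfl⟩
  rw [← hW']
  have hdW : Det p W' (fun ω => (ctx F i₁ a' w' q P H' ω, F.W ω)) := by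
    intro ω ω' _ _ h
    rw [hW'] at h
    exact (Prod.ext_iff.1 h).2
  have c1 := CH_tri3 hnn (SLP.bxs F i₁ a P K G 0) (SLP.bxs F i₁ a' P K G' 0) W'
  have c2 : CH p (SLP.bxs F i₁ a' P K G' 0) W' ≤ k1 := (CH_mono_cond hnn hdW).trans b1
  have c3 : CH p (clp F i₁ a w) W' ≤ m * Real.log 9 := (CH_mono_cond hnn hdW).trans b2
  have c4 := CH_le_add hnn (sdg F i₁ a w q K P G n) (SLP.bxs F i₁ a P K G 0) W'
  have c5 := CH_le_add hnn (sdg F i₁ a w q K P G n) (clp F i₁ a w)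
    (fun ω => (SLP.bxs F i₁ a P K G 0 ω, W' ω))
  have c6 : CH p (clp F i₁ a w) (fun ω => (SLP.bxs F i₁ a P K G 0 ω, W' ω)) ≤
      m * Real.log 9 :=
    (CH_mono_cond hnn (fun ω ω' _ _ h => (Prod.ext_iff.1 h).2)).trans c3
  have hPp : (0 : ℝ) < 2 ^ P := by positivity
  have c7 : CH p (sdg F i₁ a w q K P G n)
      (fun ω => (clp F i₁ a w ω, (SLP.bxs F i₁ a P K G 0 ω, W' ω))) ≤
      Fintype.card ↥(mon0 m K i₁) * Real.log (2 * (C₃ + 1) + 1) := by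
    refine SLP.ch_fin hp _ _ _ ?_
    intro ω ω' hω hω' he s
    have g1 : clp F i₁ a w ω = clp F i₁ a w ω' := (Prod.ext_iff.1 he).1
    have g2 : SLP.bxs F i₁ a P K G 0 ω = SLP.bxs F i₁ a P K G 0 ω' :=
      (Prod.ext_iff.1 (Prod.ext_iff.1 he).2).1
    have g3 : W' ω = W' ω' := (Prod.ext_iff.1 (Prod.ext_iff.1 he).2).2
    rw [hW'] at g3
    have g4 : n (slam F w ω) = n (slam F w ω') := (Prod.ext_iff.1 g3).1
    have g5 : ctx F i₁ a' w' q P H' ω = ctx F i₁ a' w' q P H' ω' :=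
      (Prod.ext_iff.1 (Prod.ext_iff.1 g3).2).1
    have g6 : F.W ω = F.W ω' := (Prod.ext_iff.1 (Prod.ext_iff.1 g3).2).2
    have g7 : F.T ω = F.T ω' := (Prod.ext_iff.1 g6).1
    have g8 : F.T1 w ω = F.T1 w ω' := by
      unfold Fam.T1
      rw [g7]
    have g9 : F.tw w ω = F.tw w ω' := by
      unfold Fam.tw Fam.t
      rw [g8, g7]
    have g10 : cw F i₁ a w ω = cw F i₁ a w ω' := by
      rw [cw_eq, cw_eq, g1, g8]
    have g11 : dq F i₁ q ω = dq F i₁ q ω' := (ctx_ext g5).2.2.2.2.1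
    have haq : a ≤ w + q := haa.trans (hq.trans (by omega))
    have h1 := htwo J F i₁ a w q P G ω ω' hw haq (hG ω hω) (hG ω' hω') g2 g10 g11 g9 g6
      (s : Fin m →₀ ℕ)
    unfold sdg
    rw [g4]
    obtain ⟨x, hx⟩ : ∃ x : ℝ, x = coeff (s : Fin m →₀ ℕ)
      (fixt i₁ (F.tw w ω) (plb F i₁ a w q ω (G ω))) := ⟨_, rfl⟩
    obtain ⟨y, hy⟩ : ∃ y : ℝ, y = coeff (s : Fin m →₀ ℕ)
      (fixt i₁ (F.tw w ω') (plb F i₁ a w q ω' (G ω'))) := ⟨_, rfl⟩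
    rw [← hx, ← hy] at h1
    have h2 : |((⌊(2 : ℝ) ^ P * x⌋ - ⌊(2 : ℝ) ^ P * y⌋ : ℤ) : ℝ)| ≤ C₃ + 1 := by
      refine Pool.OCT.floor_diff (L := C₃) ?_
      rw [← mul_sub, abs_mul, abs_of_pos hPp]
      refine (mul_le_mul_of_nonneg_left h1 hPp.le).trans (le_of_eq ?_)
      field_simp
    have h3 : (hz P (fixt i₁ (F.tw w ω) (plb F i₁ a w q ω (G ω))) s -
        (if (s : Fin m →₀ ℕ) = 0 then 2 ^ P * n (slam F w ω') else 0)) -
        (hz P (fixt i₁ (F.tw w ω') (plb F i₁ a w q ω' (G ω'))) s -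
        (if (s : Fin m →₀ ℕ) = 0 then 2 ^ P * n (slam F w ω') else 0)) =
        ⌊(2 : ℝ) ^ P * x⌋ - ⌊(2 : ℝ) ^ P * y⌋ := by
      unfold hz
      rw [← hx, ← hy]
      ring
    rw [h3]
    exact h2
  have c8 : (Fintype.card ↥(mon0 m K i₁) : ℝ) ≤ (mons m K).card := by
    rw [Fintype.card_coe]
    exact_mod_cast Finset.card_le_card (Finset.filter_subset _ _)
  have c9 : (Fintype.card ↥(mon0 m K i₁) : ℝ) * Real.log (2 * (C₃ + 1) + 1) ≤
      (mons m K).card * Real.log (2 * (C₃ + 1) + 1) := mul_le_mul_of_nonneg_right c8 hc3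
  linarith only [c1, c2, c4, c5, c6, c7, c9]

/-- The rounded label from the digits with the shift. -/
theorem hz_of_hcf {F : Fam m J} {i₁ : Fin m} {a w q K P : ℕ}
    {H : ((Fin m → ℝ) × (Fin m → ℝ)) × F.ζ × ℕ → MvPolynomial (Fin m) ℝ}
    {n : ((Fin m → ℝ) × (Fin m → ℝ)) × F.ζ × ℕ → ℤ} {ω ω' : F.Ω}
    (hd : ∀ s, (H s).totalDegree ≤ K) (hn : n (slam F w ω) = n (slam F w ω'))
    (hX : (fun (s : ↥(mon0 m K i₁)) (b : Fin (K + 1)) =>
      ⌊(2 : ℝ) ^ P * hcf i₁ a w q K H n (slam F w ω) s b⌋) =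
      fun s b => ⌊(2 : ℝ) ^ P * hcf i₁ a w q K H n (slam F w ω') s b⌋) :
    hz P (plb F i₁ a w q ω (H (slam F w ω))) = hz P (plb F i₁ a w q ω' (H (slam F w ω'))) := by
  classical
  funext s
  by_cases hs : s ∈ mons m K
  · obtain ⟨h1, h2, h3⟩ := split_mon i₁ hs
    have h4 := congrFun (congrFun hX ⟨s.erase i₁, h1⟩) ⟨s i₁, h2⟩
    unfold hcf at h4
    simp only at h4
    rw [← h3, plL_eq, plL_eq, hn] at h4
    have h5 : ∀ x : ℝ, ⌊(2 : ℝ) ^ P * (x - (if s = 0 then (n (slam F w ω') : ℝ) else 0))⌋ =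
        ⌊(2 : ℝ) ^ P * x⌋ - (if s = 0 then 2 ^ P * n (slam F w ω') else 0) := by
      intro x
      have e : (2 : ℝ) ^ P * (x - (if s = 0 then (n (slam F w ω') : ℝ) else 0)) =
          (2 : ℝ) ^ P * x - (((if s = 0 then 2 ^ P * n (slam F w ω') else 0 : ℤ)) : ℝ) := by
        split_ifs
        · push_cast
          ring
        · simp
      rw [e, Int.floor_sub_intCast]
    rw [h5, h5] at h4
    unfold hz
    linarith only [h4]
  · have h1 : ∀ ω₁ : F.Ω, coeff s (plb F i₁ a w q ω₁ (H (slam F w ω₁))) = 0 := by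
      intro ω₁
      refine notMem_support_iff.1 fun h => hs ?_
      exact mem_mons.2 ((le_totalDegree h).trans
        ((totalDegree_pull_le _ _ _ _ _ _).trans (hd _)))
    unfold hz
    rw [h1, h1]

/-- **Nestedness**, pure part. -/
theorem nest (m K : ℕ) (C0 : ℝ) (hC0 : 0 ≤ C0) : ∃ C : ℝ, 1 ≤ C ∧ ∀ (J : ℕ) (F : Fam m J)
    (i₁ : Fin m) (p : F.Ω → ℝ) (a w a' w' q P : ℕ) (B A e : ℝ)
    (G G' : F.Ω → MvPolynomial (Fin m) ℝ)
    (H H' : ((Fin m → ℝ) × (Fin m → ℝ)) × F.ζ × ℕ → MvPolynomial (Fin m) ℝ)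
    (n : ((Fin m → ℝ) × (Fin m → ℝ)) × F.ζ × ℕ → ℤ),
    IsLaw p → w ≤ J → w' ≤ w → a ≤ a' → a' ≤ w' + q →
    (∀ ω, 0 < p ω → (G ω).totalDegree ≤ K) → (∀ ω, 0 < p ω → (G' ω).totalDegree ≤ K) →
    (∀ s, (H s).totalDegree ≤ K) →
    (∀ ω, 0 < p ω → SLP.NearB F i₁ a w q K P P C0 G H ω) →
    (∀ ω, 0 < p ω → SLP.NearB F i₁ a' w' q K P P C0 G' H' ω) →
    (∀ ω, 0 < p ω → ∀ s, |coeff s (plb F i₁ a w q ω (H (slam F w ω))) -
      (if s = 0 then (n (slam F w ω) : ℝ) else 0)| ≤ B) →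
    (J : ℝ) * Real.log 2 - e ≤ CH p F.T (fun ω => (F.l ω, F.Z ω)) → 0 ≤ e →
    0 ≤ A → Real.log (2 * (2 * (2 ^ P * B) + 1) + 1) ≤ A * (((J - w : ℕ) : ℝ) * Real.log 2) →
    CH p (ctx F i₁ a w q P H) (fun ω => (ctx F i₁ a' w' q P H' ω, F.W ω)) ≤
      CH p (fun ω => n (slam F w ω)) (fun ω => (ctx F i₁ a' w' q P H' ω, F.W ω)) +
      (K + 1) * CH p (SLP.bxs F i₁ a P K G 0) (SLP.bxs F i₁ a' P K G' 0) +
      C * ((1 + A) * (1 + e)) := by
  classical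
  obtain ⟨C₁, hC₁, hnr⟩ := sdg_near m K
  obtain ⟨C₂, hC₂, hent⟩ := sdg_ent m K C0 hC0
  have hlog : 0 < Real.log 2 := Real.log_pos one_lt_two
  have hl6 : 0 ≤ Real.log 6 := Real.log_nonneg (by norm_num)
  have hl9 : 0 ≤ Real.log 9 := Real.log_nonneg (by norm_num)
  have hKr : (0 : ℝ) ≤ K := Nat.cast_nonneg K
  have hmr : (0 : ℝ) ≤ m := Nat.cast_nonneg m
  obtain ⟨M, hM⟩ : ∃ M : ℝ, M = ((mons m K).card : ℝ) := ⟨_, rfl⟩
  have hM0 : 0 ≤ M := by rw [hM]; exact Nat.cast_nonneg _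
  obtain ⟨Cd, hCd⟩ : ∃ Cd : ℝ, Cd = 1 + C₁ * (C0 + M) := ⟨_, rfl⟩
  have hCd0 : 0 ≤ Cd := by
    rw [hCd]
    have : 0 ≤ C₁ * (C0 + M) := by positivity
    linarith only [this]
  obtain ⟨c0, hc0⟩ : ∃ c0 : ℝ, c0 = Real.log (2 * ((K + 1) * 2 ^ K * (2 * Cd) + 1) + 1) :=
    ⟨_, rfl⟩
  have hc00 : 0 ≤ c0 := by
    rw [hc0]
    refine Real.log_nonneg ?_
    have : (0 : ℝ) ≤ (K + 1) * 2 ^ K * (2 * Cd) := by positivity
    linarith only [this]
  obtain ⟨E, hE⟩ : ∃ E : ℝ, E = (K + 1) * ((K + 1) ^ 2 *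
    (2 * (K + 1) + 2 * Real.log 6 + Real.log 2)) := ⟨_, rfl⟩
  have hE0 : 0 ≤ E := by rw [hE]; positivity
  refine ⟨1 + m * Real.log 9 + (K + 1) * (C₂ + 1) + M * (K + 1) * (c0 + E), by
    have h1 : 0 ≤ m * Real.log 9 := by positivity
    have h2 : 0 ≤ (K + 1) * (C₂ + 1) := by positivity
    have h3 : 0 ≤ M * (K + 1) * (c0 + E) := by positivity
    linarith, ?_⟩
  intro J F i₁ p a w a' w' q P B A e G G' H H' n hp hw hww haa hq hG hG' hH hnear hnear' hB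
    hT he0 hA0 hA
  have hnn := hp.nonneg
  obtain ⟨Y, hY⟩ : ∃ Y : F.Ω → Cxv F × (ℕ × F.ζ),
      Y = fun ω => (ctx F i₁ a' w' q P H' ω, F.W ω) := ⟨_, rfl⟩
  obtain ⟨c, hc⟩ : ∃ c : F.Ω → ℤ × (Cxv F × ℕ),
      c = fun ω => (n (slam F w ω), (ctx F i₁ a' w' q P H' ω, F.T1 w ω)) := ⟨_, rfl⟩
  obtain ⟨X, hX⟩ : ∃ X : F.Ω → ↥(mon0 m K i₁) → Fin (K + 1) → ℤ,
      X = fun ω s b => ⌊(2 : ℝ) ^ P * hcf i₁ a w q K H n (slam F w ω) s b⌋ := ⟨_, rfl⟩
  have hslam : ∀ ω ω' : F.Ω, slam F w ω = slam F w ω' → slam F w' ω = slam F w' ω' := by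
    intro ω ω' h
    rw [slam_coarse F hww hw, slam_coarse F hww hw, h]
  have hcL : Det p (slam F w) c := by
    intro ω ω' _ _ h
    rw [hc]
    simp only
    rw [h, ctx_of_slam (hslam ω ω' h), (of_slam h).1]
  have hcT : Det p c (F.T1 w) := by
    intro ω ω' _ _ h
    rw [hc] at h
    exact (Prod.ext_iff.1 (Prod.ext_iff.1 h).2).2
  -- the time in the window
  have ht : (((J - w : ℕ) : ℝ)) * Real.log 2 - e ≤
      CH p (fun ω => (F.W ω).1 % 2 ^ (J - w)) (slam F w) := by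
    have h2 := Pool.Agent.H89.BFL.win_time hp F.T (fun ω => (F.l ω, F.Z ω)) J w hw F.tim e hT
    rw [Nat.cast_sub hw]
    refine h2.trans (CH_mono_cond hnn fun ω ω' _ _ h => ?_)
    have e1 := Prod.ext_iff.1 h
    have e2 := Prod.ext_iff.1 e1.1
    have e3 : F.l ω = F.l ω' := e2.1
    have e4 : F.Z ω = F.Z ω' := e2.2
    have e5 : F.T ω / 2 ^ (J - w) = F.T ω' / 2 ^ (J - w) := e1.2
    unfold slam Fam.T1
    rw [e3, e4, e5]
  have hMI : Pool.KVA.MI p F.W (slam F w) c ≤ e := by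
    have h := Pool.Agent.H25.M5.h1_MI hT hp hw c F.Z hcL hcT
    have h0 : CH p F.Z (fun ω => (F.T ω, c ω)) = 0 := CH_eq_zero hnn (fun ω ω' _ _ h => by
      have h1 := (Prod.ext_iff.1 h).2
      rw [hc] at h1
      exact (ctx_ext (Prod.ext_iff.1 (Prod.ext_iff.1 h1).2).1).2.2.2.2.2.2.2)
    rw [h0, add_zero] at h
    exact h
  have h1 := Pool.SLO.FST.fst_en hp (slam F w) c hcL F.W (fun t => t.1 % 2 ^ (J - w))
    (m := J - w) (e := e) (fun ω => Nat.mod_lt _ (by positivity)) ht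
    (sdg F i₁ a w q K P G n) K (hcf i₁ a w q K H n) (R := 2 ^ P) (B := B) (C₁ := Cd) (A := A)
    (by positivity) hCd0 (fun ω hω s b => by
      unfold hcf
      rw [plL_eq]
      exact hB ω hω _) (fun ω hω s => by
      have := hnr J F i₁ a w q P C0 G H n ω hw (hG ω hω) (hH _) (hnear ω hω) s
      rw [← hM, ← hCd] at this
      exact this) hA0 hA
  rw [← hc0] at h1
  have h2 := hent J F i₁ p a w a' w' q P G G' H' n hp hw hww haa hq hG hG' hnear'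
  have h3 : CH p (sdg F i₁ a w q K P G n) (fun ω => (c ω, F.W ω)) ≤
      CH p (SLP.bxs F i₁ a P K G 0) (SLP.bxs F i₁ a' P K G' 0) + C₂ := by
    refine le_trans (CH_mono_cond hnn fun ω ω' _ _ h => ?_) h2
    have e1 := Prod.ext_iff.1 h
    have e2 := e1.1
    rw [hc] at e2
    have e3 := Prod.ext_iff.1 e2
    have e4 := Prod.ext_iff.1 e3.2
    exact Prod.ext e3.1 (Prod.ext e4.1 e1.2)
  obtain ⟨bb, hbb⟩ : ∃ bb : ℝ,
    bb = CH p (SLP.bxs F i₁ a P K G 0) (SLP.bxs F i₁ a' P K G' 0) := ⟨_, rfl⟩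
  rw [← hbb] at h3 ⊢
  have hcard : (Fintype.card ↥(mon0 m K i₁) : ℝ) ≤ M := by
    rw [hM, Fintype.card_coe]
    exact_mod_cast Finset.card_le_card (Finset.filter_subset _ _)
  have hcard0 : (0 : ℝ) ≤ Fintype.card ↥(mon0 m K i₁) := Nat.cast_nonneg _
  have h4 : CH p X c ≤ (K + 1) * (bb + C₂ + e) + M * (K + 1) * (c0 + E * ((1 + A) * (1 + e))) := by
    rw [hX]
    refine h1.trans (add_le_add ?_ ?_)
    · exact mul_le_mul_of_nonneg_left (by linarith only [hMI, h3]) (by positivity)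
    · have k1 : (K + A) * ((K + 1) ^ 2 * (2 * ((K + 1) * e + Real.log 6) + Real.log 2)) ≤
          E * ((1 + A) * (1 + e)) := by
        have k2 : (K : ℝ) + A ≤ (K + 1) * (1 + A) := by nlinarith only [hA0]
        have k3 : 2 * ((K + 1) * e + Real.log 6) + Real.log 2 ≤
            (2 * (K + 1) + 2 * Real.log 6 + Real.log 2) * (1 + e) := by nlinarith only [hlog, he0, hl6]
        have k4 : (0 : ℝ) ≤ 2 * ((K + 1) * e + Real.log 6) + Real.log 2 := by positivity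
        calc (K + A) * ((K + 1) ^ 2 * (2 * ((K + 1) * e + Real.log 6) + Real.log 2)) ≤
              ((K + 1) * (1 + A)) * ((K + 1) ^ 2 *
                ((2 * (K + 1) + 2 * Real.log 6 + Real.log 2) * (1 + e))) :=
              mul_le_mul k2 (mul_le_mul_of_nonneg_left k3 (by positivity)) (by positivity)
                (by positivity)
          _ = E * ((1 + A) * (1 + e)) := by
              rw [hE]
              ring
      have k5 : 0 ≤ c0 + (K + A) * ((K + 1) ^ 2 * (2 * ((K + 1) * e + Real.log 6) +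
          Real.log 2)) := by positivity
      refine mul_le_mul (mul_le_mul_of_nonneg_right hcard (by positivity)) (by linarith only [k1]) k5
        (by positivity)
  -- the assembly
  have a1 := CH_le_add hnn (ctx F i₁ a w q P H) (fun ω => n (slam F w ω)) Y
  have a2 := CH_le_add hnn (ctx F i₁ a w q P H) (clp F i₁ a w) (fun ω => (n (slam F w ω), Y ω))
  have a3 := CH_le_add hnn (ctx F i₁ a w q P H) X
    (fun ω => (clp F i₁ a w ω, (n (slam F w ω), Y ω)))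
  have a4 : CH p (clp F i₁ a w) (fun ω => (n (slam F w ω), Y ω)) ≤ m * Real.log 9 := by
    refine (CH_mono_cond hnn fun ω ω' _ _ h => ?_).trans (clp_ctx hp i₁ hw hww haa hq P H')
    have := (Prod.ext_iff.1 h).2
    rw [hY] at this
    exact this
  have a5 : CH p X (fun ω => (clp F i₁ a w ω, (n (slam F w ω), Y ω))) ≤ CH p X c := by
    refine CH_mono_cond hnn fun ω ω' _ _ h => ?_
    have e1 := Prod.ext_iff.1 (Prod.ext_iff.1 h).2
    have e2 : Y ω = Y ω' := e1.2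
    rw [hY] at e2
    have e3 := Prod.ext_iff.1 e2
    have e4 : F.T ω = F.T ω' := (Prod.ext_iff.1 e3.2).1
    rw [hc]
    refine Prod.ext e1.1 (Prod.ext e3.1 ?_)
    simp only
    unfold Fam.T1
    rw [e4]
  have a6 : CH p (ctx F i₁ a w q P H)
      (fun ω => (X ω, (clp F i₁ a w ω, (n (slam F w ω), Y ω)))) = 0 := by
    refine CH_eq_zero hnn fun ω ω' _ _ h => ?_
    have e0 := Prod.ext_iff.1 h
    have e1 := Prod.ext_iff.1 e0.2
    have e2 := Prod.ext_iff.1 e1.2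
    have e3 : Y ω = Y ω' := e2.2
    rw [hY] at e3
    have e4 := Prod.ext_iff.1 e3
    have e5 : F.T ω = F.T ω' := (Prod.ext_iff.1 e4.2).1
    have e6 : F.Z ω = F.Z ω' := (Prod.ext_iff.1 e4.2).2
    have e7 : F.T1 w ω = F.T1 w ω' := by
      unfold Fam.T1
      rw [e5]
    have e8 : cld F i₁ q ω = cld F i₁ q ω' := (ctx_ext e4.1).2.2.1
    have e9 : X ω = X ω' := e0.1
    rw [hX] at e9
    have e10 := hz_of_hcf (F := F) hH e2.1 e9
    have e11 : clp F i₁ a w ω = clp F i₁ a w ω' := e1.1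
    unfold ctx
    rw [e7, e11, e8, e10, e6]
  rw [← hY]
  have hAe : 0 ≤ A * e := mul_nonneg hA0 he0
  obtain ⟨Q, hQ⟩ : ∃ Q : ℝ, Q = (1 + A) * (1 + e) := ⟨_, rfl⟩
  rw [← hQ] at h4 ⊢
  have hQ1 : 1 ≤ Q := by rw [hQ]; nlinarith only [he0, hA0, hAe]
  have hQe : 1 + e ≤ Q := by rw [hQ]; nlinarith only [hA0, hAe]
  have f1 : CH p (ctx F i₁ a w q P H) Y ≤ CH p (fun ω => n (slam F w ω)) Y + m * Real.log 9 +
      ((K + 1) * (bb + C₂ + e) + M * (K + 1) * (c0 + E * Q)) := by linarith only [a1, a2, a3, a4, a5, a6, h4]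
  have f2 : (m : ℝ) * Real.log 9 ≤ m * Real.log 9 * Q :=
    le_mul_of_one_le_right (by positivity) hQ1
  have f3 : ((K : ℝ) + 1) * (bb + C₂ + e) ≤ (K + 1) * bb + (K + 1) * (C₂ + 1) * Q := by
    have g1 : C₂ + e ≤ (C₂ + 1) * Q := by nlinarith only [hA0, hAe, hQ, hC₂, he0]
    have g2 : ((K : ℝ) + 1) * (C₂ + e) ≤ (K + 1) * ((C₂ + 1) * Q) :=
      mul_le_mul_of_nonneg_left g1 (by positivity)
    linarith only [g2]
  have f4 : M * (K + 1) * (c0 + E * Q) ≤ M * (K + 1) * (c0 + E) * Q := by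
    have g1 : c0 + E * Q ≤ (c0 + E) * Q := by nlinarith only [hc00, he0, hA0, hAe, hQ]
    have g2 := mul_le_mul_of_nonneg_left g1 (show (0 : ℝ) ≤ M * (K + 1) by positivity)
    linarith only [g2]
  linarith only [he0, hA0, a1, a2, a3, a4, a5, a6, hAe, h4, hQ, f2, f3, f4]

end Pool.SLF
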