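import Pool.Agent.H25.SLF.NestB
import Pool.Agent.H59.SLF.Crd
import Pool.Agent.H31.SLF.Nst

/-!
# Nestedness of the contexts (H2X2) in the skeleton of the slope law

`nst_of : CRD S → NST S`.
-/

set_option autoImplicit false

namespace Pool.SLF

open Finset Real MvPolynomial
open Pool.Agent.H49.Ent Pool.Agent.H32.Dense Pool.STK Pool.KAF Pool.KA Pool.KSAT Pool.K2S
open Pool.PB Pool.SLO Pool.KAL

/-! ### Coefficients from the values on a small cube -/

/-- The coefficients from the values on a small cube. -/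
theorem coef_scale (m K : ℕ) : ∃ C : ℝ, 1 ≤ C ∧ ∀ (P : MvPolynomial (Fin m) ℝ) (M r : ℝ)
    (c : Fin m → ℝ), P.totalDegree ≤ K → 0 < r → r ≤ 1 → (∀ i, |c i| ≤ 2) →
    (∀ z : Fin m → ℝ, (∀ i, |z i - c i| ≤ r) → |eval z P| ≤ M) →
      coefSum P ≤ C * M * (1 / r) ^ K := by
  obtain ⟨C, hC, hcube⟩ := Pool.SLP.coef_cube m K
  refine ⟨2 ^ K * C, ?_, ?_⟩
  · have : (1 : ℝ) ≤ 2 ^ K := one_le_pow₀ (by norm_num)
    nlinarith only [hC, this]
  intro P M r c hP hr hr1 hc hM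
  obtain ⟨Q, hQ⟩ : ∃ Q : MvPolynomial (Fin m) ℝ, Q = shf P (2 * r) (fun i => c i - r) := ⟨_, rfl⟩
  have hQd : Q.totalDegree ≤ K := by
    rw [hQ]
    exact (totalDegree_shf_le _ _ _).trans hP
  have h1 : coefSum Q ≤ C * M := by
    refine hcube Q M (fun _ => 0) hQd (fun _ => by simp) ?_
    intro y hy
    rw [hQ, eval_shf]
    refine hM _ fun i => ?_
    have h2 := hy i
    simp only [zero_add] at h2
    rw [abs_le]
    constructor <;> nlinarith only [hr, h2, h2.1, h2.2]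
  have h2 : P = shf Q (1 / (2 * r)) (fun i => (r - c i) / (2 * r)) := by
    rw [hQ, shf_shf]
    have e1 : 2 * r * (1 / (2 * r)) = 1 := by field_simp
    have e2 : (fun i => c i - r + 2 * r * ((r - c i) / (2 * r))) = fun _ => (0 : ℝ) := by
      funext i
      field_simp
      ring
    rw [e1, e2, shf_zero_one]
  have hr2 : (1 : ℝ) ≤ 2 / r := by
    rw [le_div_iff₀ hr]
    linarith only [hr1]
  have h3 : coefSum P ≤ (2 / r) ^ Q.totalDegree * coefSum Q := by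
    conv_lhs => rw [h2]
    unfold shf
    refine coefSum_aeval_le Q _ (2 / r) hr2 fun i => ?_
    refine (coefSum_add_le _ _).trans ?_
    rw [coefSum_C, coefSum_C_mul, coefSum_X, mul_one, abs_div,
      abs_of_pos (by positivity : (0 : ℝ) < 2 * r), abs_of_pos (by positivity : (0 : ℝ) <
      1 / (2 * r)), ← add_div, div_le_div_iff₀ (by positivity) hr]
    have h4 : |r - c i| ≤ 3 := by
      have := hc i
      rw [abs_le] at this ⊢
      constructor <;> linarith [this.1, this.2]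
    nlinarith only [hr, h4]
  have hQ0 : 0 ≤ coefSum Q := coefSum_nonneg _
  have hCM : 0 ≤ C * M := hQ0.trans h1
  calc coefSum P ≤ (2 / r) ^ Q.totalDegree * coefSum Q := h3
    _ ≤ (2 / r) ^ K * (C * M) :=
        mul_le_mul (pow_le_pow_right₀ hr2 hQd) h1 hQ0 (by positivity)
    _ = 2 ^ K * C * M * (1 / r) ^ K := by
        have : (2 : ℝ) / r = 2 * (1 / r) := by ring
        rw [this, mul_pow]
        ring

/-! ### The height of the line -/

variable {k J : ℕ}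

/-- The height of the line at the beginning of the window, rounded to an integer. -/
noncomputable def hgt {ζ : Type} (i₁ : Fin (k + 1)) (v : ℕ)
    (l : ((Fin (k + 1) → ℝ) × (Fin (k + 1) → ℝ)) × ζ × ℕ) : ℤ :=
  ⌊l.1.1 i₁ + (l.2.2 : ℝ) / 2 ^ v * l.1.2 i₁⌋

/-- The height at the time of the sample. -/
theorem hgt_near (F : Fam (k + 1) J) (i₁ : Fin (k + 1)) {v : ℕ} (hv : v ≤ J) (ω : F.Ω) :
    |F.x ω i₁ - (hgt i₁ v (slam F v ω) : ℝ)| ≤ 2 := by
  have h1 := T1_real F hv ω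
  have h2 := F.dir ω i₁
  have hp : (0 : ℝ) < 2 ^ v := by positivity
  have hp1 : (1 : ℝ) ≤ 2 ^ v := one_le_pow₀ (by norm_num)
  obtain ⟨x, hx⟩ : ∃ x : ℝ, x = F.u ω i₁ + (F.T1 v ω : ℝ) / 2 ^ v * F.d ω i₁ := ⟨_, rfl⟩
  have h3 : (hgt i₁ v (slam F v ω) : ℝ) = (⌊x⌋ : ℝ) := by
    rw [hx]
    rfl
  have h4 := Int.floor_le x
  have h5 := Int.lt_floor_add_one x
  have h6 : |F.x ω i₁ - x| ≤ 1 := by
    have e : F.x ω i₁ - x = (2 ^ v * F.t ω - F.T1 v ω) / 2 ^ v * F.d ω i₁ := by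
      rw [hx]
      unfold Fam.x
      field_simp
      ring
    rw [e, abs_mul, abs_div, abs_of_pos hp]
    have h7 : |2 ^ v * F.t ω - F.T1 v ω| / 2 ^ v ≤ 1 := by
      rw [div_le_one hp]
      refine le_trans ?_ hp1
      rw [abs_le]
      constructor <;> linarith only [h1, h1.1, h1.2]
    calc _ ≤ 1 * 1 := mul_le_mul h7 h2 (abs_nonneg _) (by norm_num)
      _ = 1 := by norm_num
  rw [h3]
  rw [abs_le] at h6 ⊢
  constructor <;> linarith [h6.1, h6.2]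

variable {F : Fam (k + 1) J} {d : Dts F} {i₁ : Fin (k + 1)} {N ρ K : ℕ} {p : ℕ → ℕ → ℕ}
  {A : F.Ω → Prop}

/-- The constant of the heights. -/
noncomputable def Ch1 (k : ℕ) : ℝ := 4 + (k + 1) * (2 * (k + 1) + 1)

theorem four_le_Ch1 (k : ℕ) : 4 ≤ Ch1 k := by
  unfold Ch1
  have : (0 : ℝ) ≤ (k + 1) * (2 * (k + 1) + 1) := by positivity
  linarith only [this]

/-- The own sheet on the ball is near the height of the line. -/
theorem own_hgt (h : d.OK i₁ N ρ K p A) {a v : ℕ} (ha : a ≤ ρ) (hv : v ≤ J) {ω : F.Ω}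
    (hω : A ω) {b : Fin (k + 1) → ℝ}
    (hb : ∀ j, |b j - bp F i₁ ω j| ≤ 1 / 2 ^ ((a + 1) * (J / N))) :
    |eval b (own F N ρ d a ω) - (hgt i₁ v (slam F v ω) : ℝ)| ≤
      3 + (k + 1) * (2 * (k + 1) + 1) := by
  have h1 := h.on a ha ω hω
  have h2 := hgt_near F i₁ hv ω
  have h3 : (1 : ℝ) / 2 ^ (p a a * (J / N)) ≤ 1 := by
    rw [div_le_one (by positivity)]
    exact one_le_pow₀ (by norm_num)
  have hδ : (1 : ℝ) / 2 ^ ((a + 1) * (J / N)) ≤ 1 := by
    rw [div_le_one (by positivity)]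
    exact one_le_pow₀ (by norm_num)
  have h4 := Pool.SLP.seg_lip (own F N ρ d a ω) (2 * ((k + 1 : ℕ) : ℝ) + 1) 1 (by positivity)
    (bp F i₁ ω) b (fun j => (hb j).trans hδ) (by
      intro s hs0 hs1 j
      refine h.gr a ha ω hω _ (fun i => ?_) j
      have e : bp F i₁ ω i + s * (b i - bp F i₁ ω i) - bp F i₁ ω i =
          s * (b i - bp F i₁ ω i) := by ring
      rw [e, abs_mul, abs_of_nonneg hs0]
      calc s * |b i - bp F i₁ ω i| ≤ 1 * |b i - bp F i₁ ω i| :=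
            mul_le_mul_of_nonneg_right hs1 (abs_nonneg _)
        _ ≤ _ := by
            rw [one_mul]
            exact hb i)
  push_cast at h4
  have h5 := h1.trans h3
  obtain ⟨x1, hx1⟩ : ∃ x1, x1 = eval b (own F N ρ d a ω) := ⟨_, rfl⟩
  obtain ⟨x2, hx2⟩ : ∃ x2, x2 = eval (bp F i₁ ω) (own F N ρ d a ω) := ⟨_, rfl⟩
  rw [← hx1, ← hx2] at h4
  rw [← hx2] at h5
  rw [← hx1]
  rw [abs_le] at h2 h4 h5 ⊢
  constructor <;> linarith only [h2, h5, h4, h2.1, h2.2, h4.1, h4.2, h5.1, h5.2]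

theorem dq_le (F : Fam (k + 1) J) (i₁ : Fin (k + 1)) (q : ℕ) (ω : F.Ω) (j : Fin (k + 1)) :
    |dq F i₁ q ω j| ≤ 1 := by
  unfold dq
  split_ifs
  · simp
  · have hq : (0 : ℝ) < 2 ^ q := by positivity
    have h1 := F.dir ω j
    rw [abs_div, abs_of_pos hq, div_le_one hq]
    have h2 : |(2 : ℝ) ^ q * F.d ω j| ≤ 2 ^ q := by
      rw [abs_mul, abs_of_pos hq]
      nlinarith only [hq, h1]
    rw [abs_le] at h2 ⊢
    constructor
    · have h3 : (((-(2 ^ q : ℤ)) : ℤ) : ℝ) ≤ (2 : ℝ) ^ q * F.d ω j := by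
        push_cast
        exact h2.1
      have h4 : (-(2 ^ q : ℤ)) ≤ ⌊(2 : ℝ) ^ q * F.d ω j⌋ := Int.le_floor.mpr h3
      have h5 : (((-(2 ^ q : ℤ)) : ℤ) : ℝ) ≤ (⌊(2 : ℝ) ^ q * F.d ω j⌋ : ℝ) := by
        exact_mod_cast h4
      push_cast at h5
      exact h5
    · exact (Int.floor_le _).trans h2.2

/-- **The coefficients of the label over the height of the line** are bounded. -/
theorem lab_coef (k K : ℕ) : ∃ C : ℝ, 1 ≤ C ∧ ∀ (J : ℕ) (F : Fam (k + 1) J) (d : Dts F)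
    (i₁ : Fin (k + 1)) (N ρ : ℕ) (p : ℕ → ℕ → ℕ) (A : F.Ω → Prop) (a w v q : ℕ),
    d.OK i₁ N ρ K p A → w ≤ a → a ≤ ρ → w * (J / N) ≤ v → v ≤ a * (J / N) → v ≤ J →
    (a + 2) * (J / N) ≤ v + q * (J / N) → ∀ ω, A ω → ∀ s,
    |coeff s (plb F i₁ ((a + 2) * (J / N)) v (q * (J / N)) ω (d.H a v (slam F v ω))) -
      (if s = 0 then (hgt i₁ v (slam F v ω) : ℝ) else 0)| ≤
      C * 2 ^ (K * ((a + 1) * (J / N) + 1)) := by
  classical
  obtain ⟨C₁, hC, hsc⟩ := coef_scale (k + 1) K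
  have hh := four_le_Ch1 k
  refine ⟨C₁ * Ch1 k, by nlinarith only [hC, hh], ?_⟩
  intro J F d i₁ N ρ p A a w v q hd hwa ha hv hv' hvJ hq ω hω s
  obtain ⟨u, hu⟩ : ∃ u, u = J / N := ⟨_, rfl⟩
  rw [← hu] at hv hv' hq ⊢
  obtain ⟨n, hn⟩ : ∃ n : ℤ, n = hgt i₁ v (slam F v ω) := ⟨_, rfl⟩
  obtain ⟨Q, hQ⟩ : ∃ Q : MvPolynomial (Fin (k + 1)) ℝ,
    Q = plb F i₁ ((a + 2) * u) v (q * u) ω (d.H a v (slam F v ω)) := ⟨_, rfl⟩
  rw [← hn, ← hQ]
  obtain ⟨E, hE⟩ : ∃ E, E = (a + 1) * u + 1 - v := ⟨_, rfl⟩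
  have hau : a * u ≤ (a + 1) * u := Nat.mul_le_mul_right _ (by omega)
  have hau2 : (a + 1) * u ≤ (a + 2) * u := Nat.mul_le_mul_right _ (by omega)
  have hE1 : E + v = (a + 1) * u + 1 := by omega
  have hQd : (Q - C (n : ℝ)).totalDegree ≤ K := by
    refine (totalDegree_sub _ _).trans (max_le ?_ ?_)
    · rw [hQ]
      exact (totalDegree_pull_le _ _ _ _ _ _).trans (hd.dH _ _ _)
    · rw [totalDegree_C]
      exact Nat.zero_le _
  have hval : ∀ z : Fin (k + 1) → ℝ,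
      (∀ i, |z i - pb F i₁ ((a + 2) * u) v (q * u) ω i| ≤ 1 / 2 ^ E) →
      |eval z (Q - C (n : ℝ))| ≤ Ch1 k := by
    intro z hz
    rw [map_sub, eval_C]
    obtain ⟨b, hb⟩ : ∃ b, b = sb i₁ ((a + 2) * u) v (cw F i₁ ((a + 2) * u) v ω)
      (dq F i₁ (q * u) ω) z := ⟨_, rfl⟩
    have e1 : eval z Q = eval b (d.H a v (slam F v ω)) := by
      rw [hQ, hb]
      exact eval_pull _ _ _ _ _ _ _
    have hball : ∀ j, |b j - bp F i₁ ω j| ≤ 1 / 2 ^ ((a + 1) * u) := by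
      intro j
      rw [hb, ← sb_pb F i₁ ((a + 2) * u) v (q * u) ω]
      have hp1 : pb F i₁ ((a + 2) * u) v (q * u) ω i₁ = F.tw v ω := by
        unfold pb pnt
        rw [if_pos rfl]
      have z1 := hz i₁
      have z2 := hz j
      have hpv : (0 : ℝ) < 2 ^ v := by positivity
      have hEv : (1 : ℝ) / 2 ^ E / 2 ^ v = 1 / 2 ^ ((a + 1) * u) / 2 := by
        rw [div_div, ← pow_add, hE1, pow_succ, div_div]
      unfold sb
      by_cases hj : j = i₁
      · rw [if_pos hj, if_pos hj]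
        have e : cw F i₁ ((a + 2) * u) v ω i₁ + z i₁ / 2 ^ v -
            (cw F i₁ ((a + 2) * u) v ω i₁ + pb F i₁ ((a + 2) * u) v (q * u) ω i₁ / 2 ^ v) =
            (z i₁ - pb F i₁ ((a + 2) * u) v (q * u) ω i₁) / 2 ^ v := by ring
        rw [e, abs_div, abs_of_pos hpv]
        refine (div_le_div_of_nonneg_right z1 hpv.le).trans ?_
        rw [hEv]
        have : (0 : ℝ) ≤ 1 / 2 ^ ((a + 1) * u) := by positivity
        linarith only [this]
      · rw [if_neg hj, if_neg hj]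
        have e : cw F i₁ ((a + 2) * u) v ω j + dq F i₁ (q * u) ω j * (z i₁ / 2 ^ v) +
            z j / 2 ^ ((a + 2) * u) - (cw F i₁ ((a + 2) * u) v ω j + dq F i₁ (q * u) ω j *
            (pb F i₁ ((a + 2) * u) v (q * u) ω i₁ / 2 ^ v) +
            pb F i₁ ((a + 2) * u) v (q * u) ω j / 2 ^ ((a + 2) * u)) =
            dq F i₁ (q * u) ω j * ((z i₁ - pb F i₁ ((a + 2) * u) v (q * u) ω i₁) / 2 ^ v) +
            (z j - pb F i₁ ((a + 2) * u) v (q * u) ω j) / 2 ^ ((a + 2) * u) := by ring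
        rw [e]
        have f1 : |dq F i₁ (q * u) ω j *
            ((z i₁ - pb F i₁ ((a + 2) * u) v (q * u) ω i₁) / 2 ^ v)| ≤
            1 / 2 ^ ((a + 1) * u) / 2 := by
          rw [abs_mul, abs_div, abs_of_pos hpv, ← hEv]
          calc _ ≤ 1 * (1 / 2 ^ E / 2 ^ v) :=
                mul_le_mul (dq_le F i₁ _ ω j) (div_le_div_of_nonneg_right z1 hpv.le)
                  (by positivity) (by norm_num)
            _ = _ := one_mul _
        have f2 : |(z j - pb F i₁ ((a + 2) * u) v (q * u) ω j) / 2 ^ ((a + 2) * u)| ≤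
            1 / 2 ^ ((a + 1) * u) / 2 := by
          rw [abs_div, abs_of_pos (by positivity : (0 : ℝ) < 2 ^ ((a + 2) * u)), ← hEv]
          refine (div_le_div_of_nonneg_right z2 (by positivity)).trans ?_
          refine div_le_div_of_nonneg_left (by positivity) hpv ?_
          exact pow_le_pow_right₀ (by norm_num) (by omega)
        refine (abs_add_le _ _).trans ?_
        linarith only [f1, f2]
    have t1 := hd.tb a ha w hwa v (by rw [← hu]; exact hv) (by rw [← hu]; exact hv') ω hω b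
      (by rw [← hu]; exact hball)
    have t2 := own_hgt hd ha hvJ hω (b := b) (by rw [← hu]; exact hball)
    have t3 : (1 : ℝ) / 2 ^ (p a w * (J / N)) ≤ 1 := by
      rw [div_le_one (by positivity)]
      exact one_le_pow₀ (by norm_num)
    rw [← hn] at t2
    rw [e1]
    have t4 := t1.trans t3
    unfold Ch1
    obtain ⟨x1, hx1⟩ : ∃ x1, x1 = eval b (own F N ρ d a ω) := ⟨_, rfl⟩
    obtain ⟨x2, hx2⟩ : ∃ x2, x2 = eval b (d.H a v (slam F v ω)) := ⟨_, rfl⟩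
    rw [← hx1] at t2 t4
    rw [← hx2] at t4 ⊢
    rw [abs_le] at t2 t4 ⊢
    constructor <;> linarith only [t2, t4, t2.1, t2.2, t4.1, t4.2]
  have hpb : ∀ i, |pb F i₁ ((a + 2) * u) v (q * u) ω i| ≤ 2 := by
    intro i
    have ht := Pool.SLP.tw_mem' F hvJ ω
    unfold pb pnt
    by_cases hi : i = i₁
    · rw [if_pos hi, abs_of_nonneg ht.1]
      linarith only [ht, ht.2]
    · rw [if_neg hi]
      have h4 := yb_mem F i₁ ((a + 2) * u) v ω i
      have h5 := omb_mem F i₁ ((a + 2) * u) v (q * u) ω i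
      have h7 : (2 : ℝ) ^ ((a + 2) * u) / (2 ^ v * 2 ^ (q * u)) ≤ 1 := by
        rw [div_le_one (by positivity), ← pow_add]
        exact pow_le_pow_right₀ (by norm_num) hq
      have h8 : F.tw v ω * omb F i₁ ((a + 2) * u) v (q * u) ω i ≤ 1 * 1 :=
        mul_le_mul ht.2.le (h5.2.trans h7) h5.1 (by norm_num)
      have h9 : 0 ≤ F.tw v ω * omb F i₁ ((a + 2) * u) v (q * u) ω i := mul_nonneg ht.1 h5.1
      rw [abs_le]
      constructor <;> linarith [h4.1, h4.2]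
  have hE0 : (0 : ℝ) < 1 / 2 ^ E := by positivity
  have hE1' : (1 : ℝ) / 2 ^ E ≤ 1 := by
    rw [div_le_one (by positivity)]
    exact one_le_pow₀ (by norm_num)
  have h1 := hsc (Q - C (n : ℝ)) (Ch1 k) (1 / 2 ^ E) _ hQd hE0 hE1' hpb hval
  have h2 := (abs_coeff_le (Q - C (n : ℝ)) s).trans h1
  rw [coeff_sub, coeff_C] at h2
  have e2 : (if (0 : Fin (k + 1) →₀ ℕ) = s then (n : ℝ) else 0) =
      if s = 0 then (n : ℝ) else 0 := by
    by_cases hs : s = 0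
    · rw [if_pos hs, if_pos hs.symm]
    · rw [if_neg hs, if_neg (fun h => hs h.symm)]
  rw [e2] at h2
  refine h2.trans ?_
  rw [one_div_one_div, ← pow_mul]
  refine mul_le_mul_of_nonneg_left ?_ (by positivity)
  refine pow_le_pow_right₀ (by norm_num) ?_
  rw [mul_comm E K]
  exact Nat.mul_le_mul_left K (by omega)

/-- The height of the line from the context and the time. -/
theorem hgt_ctx (k K : ℕ) : ∃ C : ℝ, 0 ≤ C ∧ ∀ (J : ℕ) (F : Fam (k + 1) J) (d : Dts F)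
    (i₁ : Fin (k + 1)) (N ρ : ℕ) (p : ℕ → ℕ → ℕ) (A : F.Ω → Prop) (Q : F.Ω → ℝ)
    (R a w v q v₁ : ℕ), d.OK i₁ N ρ K p A → IsLaw Q → (∀ ω, 0 < Q ω → A ω) → 1 ≤ J / N →
    w ≤ a → a ≤ ρ → w * (J / N) ≤ v → v ≤ a * (J / N) → v ≤ J → v₁ ≤ J →
    (a + 2) * (J / N) ≤ v + q * (J / N) → R ≤ p a w →
    CH Q (fun ω => hgt i₁ v₁ (slam F v₁ ω)) (fun ω => (cx F i₁ N q d R a v ω, F.W ω)) ≤ C := by
  classical
  obtain ⟨M, hM⟩ : ∃ M : ℝ, M = ((mons (k + 1) K).card : ℝ) := ⟨_, rfl⟩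
  have hM0 : 0 ≤ M := by rw [hM]; exact Nat.cast_nonneg _
  obtain ⟨L, hL⟩ : ∃ L : ℝ, L = 2 * ((3 + (k + 1) * (2 * (k + 1) + 1)) + (1 + M)) := ⟨_, rfl⟩
  have hL0 : 0 ≤ L := by rw [hL]; positivity
  refine ⟨Real.log (2 * L + 1), Real.log_nonneg (by linarith only [hL0]), ?_⟩
  intro J F d i₁ N ρ p A Q R a w v q v₁ hd hQ hQA hu hwa ha hv hv' hvJ hv₁ hq hR
  obtain ⟨W, hW⟩ : ∃ W : F.Ω → Cx F × (ℕ × F.ζ),
    W = fun ω => (cx F i₁ N q d R a v ω, F.W ω) := ⟨_, rfl⟩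
  rw [← hW]
  have h1 : CH Q (fun ω (_ : Fin 1) => hgt i₁ v₁ (slam F v₁ ω)) W ≤
      Fintype.card (Fin 1) * Real.log (2 * L + 1) := by
    refine Pool.SLP.ch_fin hQ _ _ _ ?_
    intro ω ω' hω hω' he _
    rw [hW] at he
    have e1 := Prod.ext_iff.1 he
    have e2 : ctx F i₁ ((a + 2) * (J / N)) v (q * (J / N)) (R * (J / N)) (d.H a v) ω =
      ctx F i₁ ((a + 2) * (J / N)) v (q * (J / N)) (R * (J / N)) (d.H a v) ω' := e1.1
    have e3 : F.W ω = F.W ω' := e1.2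
    have e4 : F.T ω = F.T ω' := (Prod.ext_iff.1 e3).1
    have e5 := ctx_ext e2
    have e6 : F.tw v ω = F.tw v ω' := by
      unfold Fam.tw Fam.t
      rw [e5.1, e4]
    have key : ∀ ω₁ : F.Ω, 0 < Q ω₁ → |eval (pnt i₁ 0 0 (F.tw v ω₁))
        (Rc F i₁ ((a + 2) * (J / N)) v (q * (J / N)) K (R * (J / N)) (d.H a v) ω₁) -
        (hgt i₁ v₁ (slam F v₁ ω₁) : ℝ)| ≤ (3 + (k + 1) * (2 * (k + 1) + 1)) + (1 + M) := by
      intro ω₁ hω₁
      have hA := hQA ω₁ hω₁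
      have ht := Pool.SLP.tw_mem' F hvJ ω₁
      have hb : ∀ j, 0 ≤ pnt i₁ (0 : Fin (k + 1) → ℝ) 0 (F.tw v ω₁) j ∧
          pnt i₁ (0 : Fin (k + 1) → ℝ) 0 (F.tw v ω₁) j ≤ 1 := by
        intro j
        unfold pnt
        split_ifs
        · exact ⟨ht.1, ht.2.le⟩
        · simp
      have hb1 : pnt i₁ (0 : Fin (k + 1) → ℝ) 0 (F.tw v ω₁) i₁ = F.tw v ω₁ := by
        unfold pnt
        rw [if_pos rfl]
      have f1 := ok_near hd hu hwa ha hv hv' hvJ hq hR ω₁ hA _ hb hb1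
      have f2 := own_hgt hd ha hv₁ hA (b := sb i₁ ((a + 2) * (J / N)) v
        (cw F i₁ ((a + 2) * (J / N)) v ω₁) (dq F i₁ (q * (J / N)) ω₁)
        (pnt i₁ 0 0 (F.tw v ω₁)))
        (fun j => (sb_near F i₁ hvJ hq ω₁ hb hb1 j).trans (two_le_ball hu))
      have f3 : eval (pnt i₁ 0 0 (F.tw v ω₁))
          (plb F i₁ ((a + 2) * (J / N)) v (q * (J / N)) ω₁ (own F N ρ d a ω₁)) =
          eval (sb i₁ ((a + 2) * (J / N)) v
          (cw F i₁ ((a + 2) * (J / N)) v ω₁) (dq F i₁ (q * (J / N)) ω₁)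
          (pnt i₁ 0 0 (F.tw v ω₁))) (own F N ρ d a ω₁) := eval_pull _ _ _ _ _ _ _
      rw [f3, ← hM] at f1
      have f4 : (1 + M) / 2 ^ (R * (J / N)) ≤ 1 + M :=
        div_le_self (by linarith only [hM]) (one_le_pow₀ (by norm_num))
      have f5 := f1.trans f4
      obtain ⟨x1, hx1⟩ : ∃ x1, x1 = eval (sb i₁ ((a + 2) * (J / N)) v
          (cw F i₁ ((a + 2) * (J / N)) v ω₁) (dq F i₁ (q * (J / N)) ω₁)
          (pnt i₁ 0 0 (F.tw v ω₁))) (own F N ρ d a ω₁) := ⟨_, rfl⟩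
      obtain ⟨x2, hx2⟩ : ∃ x2, x2 = eval (pnt i₁ 0 0 (F.tw v ω₁))
        (Rc F i₁ ((a + 2) * (J / N)) v (q * (J / N)) K (R * (J / N)) (d.H a v) ω₁) := ⟨_, rfl⟩
      rw [← hx1] at f2 f5
      rw [← hx2] at f5 ⊢
      rw [abs_le] at f2 f5 ⊢
      constructor <;> linarith only [f2, f5, f2.1, f2.2, f5.1, f5.2]
    have g1 := key ω hω
    have g2 := key ω' hω'
    rw [← e5.2.2.2.2.2.2.1 K, ← e6] at g2
    obtain ⟨y, hy⟩ : ∃ y, y = eval (pnt i₁ 0 0 (F.tw v ω))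
      (Rc F i₁ ((a + 2) * (J / N)) v (q * (J / N)) K (R * (J / N)) (d.H a v) ω) := ⟨_, rfl⟩
    rw [← hy] at g1 g2
    rw [hL]
    push_cast
    rw [abs_le] at g1 g2 ⊢
    constructor <;> linarith only [g2, g1, g1.1, g1.2, g2.1, g2.2]
  rw [Fintype.card_fin, Nat.cast_one, one_mul] at h1
  refine le_trans (CH_mono_left hQ.nonneg fun ω ω' _ _ h => ?_) h1
  exact congrFun (Prod.ext_iff.1 h).1 0

/-! ### The theorem -/

/-- **Nestedness of the contexts.** -/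
theorem nst_of {S : FCl (k + 1)} (hCR : CRD S) : NST S := by
  classical
  intro c h₁ X K ε hc hc1 hh₁ hX hK hε
  have hKr : (1 : ℝ) ≤ K := by exact_mod_cast hK
  have hlog : 0 < Real.log 2 := Real.log_pos one_lt_two
  obtain ⟨B₂, hB₂, h1⟩ := hCR c h₁ X K (ε / (4 * (K + 1))) hc hc1 hh₁ hX hK (by positivity)
  refine ⟨B₂, hB₂, fun B₁ hB₁ => ?_⟩
  obtain ⟨B₀, h2⟩ := h1 B₁ hB₁
  refine ⟨max B₀ 1, fun B hB => ?_⟩
  have hB1 : 1 ≤ B := (le_max_right _ _).trans hB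
  obtain ⟨L₁, h3⟩ := h2 B ((le_max_left _ _).trans hB)
  refine ⟨max L₁ 1, fun L hL N x hx1 hx2 i₁ ρ R q a w a' w' hww hwa haa haR haρ hq hRρ
    hXN => ?_⟩
  have h4 := h3 L ((le_max_left _ _).trans hL) N x hx1 hx2 i₁ ρ R a a' haa haR haρ hRρ hXN
  have hL1 : 1 ≤ L := (le_max_right _ _).trans hL
  have hx0 : 1 ≤ x := by
    have : 1 * 1 ≤ B₂ * L := Nat.mul_le_mul hB₂ hL1
    omega
  have hBL : 1 ≤ B * L := by
    have : 1 * 1 ≤ B * L := Nat.mul_le_mul hB1 hL1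
    omega
  have hN0 : 0 < N := by
    rcases Nat.eq_zero_or_pos N with h | h
    · exfalso
      subst h
      have h5 : (ρ : ℝ) ≤ 0 := by simpa using hXN
      have h6 : ρ = 0 := by
        have : (ρ : ℝ) = 0 := le_antisymm h5 (Nat.cast_nonneg ρ)
        exact_mod_cast this
      omega
    · exact h
  have hρN : ρ ≤ N := by
    have : (ρ : ℝ) ≤ N := by
      have : 0 ≤ X * N := by positivity
      linarith only [hXN, this]
    exact_mod_cast this
  -- the constants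
  obtain ⟨M, hM⟩ : ∃ M : ℝ, M = ((mons (k + 1) K).card : ℝ) := ⟨_, rfl⟩
  have hM0 : 0 ≤ M := by rw [hM]; exact Nat.cast_nonneg _
  obtain ⟨C₁, hC₁, hnest⟩ := nest (k + 1) K (1 + M) (by linarith only [hM])
  obtain ⟨C₂, hC₂, hcoef⟩ := lab_coef k K
  obtain ⟨C₃, hC₃, hhgt⟩ := hgt_ctx k K
  have hl7 : 0 ≤ Real.log (7 * C₂) := Real.log_nonneg (by linarith only [hC₂])
  obtain ⟨A₀, hA₀⟩ : ∃ A₀ : ℝ, A₀ = (Real.log (7 * C₂) / Real.log 2 + 1 + 3 * K) / X :=
    ⟨_, rfl⟩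
  have hA0 : 0 ≤ A₀ := by rw [hA₀]; positivity
  obtain ⟨D, hD⟩ : ∃ D : ℝ, D = C₁ * (1 + A₀) := ⟨_, rfl⟩
  have hD0 : 0 < D := by rw [hD]; positivity
  obtain ⟨η, hη⟩ : ∃ η : ℝ, η = ε / (8 * N * D) := ⟨_, rfl⟩
  have hNr : (1 : ℝ) ≤ N := by exact_mod_cast hN0
  have hη0 : 0 < η := by rw [hη]; positivity
  obtain ⟨u₀, hu₀⟩ := exists_nat_gt (4 * (C₃ + D) / ε)
  refine Clg.mono (J₂ := N * (u₀ + 1)) (h4.and (h1f_thm S η hη0)) ?_
  intro J hJ F A hall hCh hPl hGC p d hd hG hRp hRp' v v' hv hv' hvv hva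
  obtain ⟨h5, hQ, hT⟩ := hall
  have h6 := h5 hCh hPl hGC p d hd hG
  have hQA : ∀ ω, 0 < Qa F A ω → A ω := by
    intro ω hω
    have := ((cond_pos_iff F.isLaw.nonneg A True ω).1 hω).2
    rw [this]
    trivial
  obtain ⟨u, hu⟩ : ∃ u, u = J / N := ⟨_, rfl⟩
  have huu : u₀ + 1 ≤ u := by
    rw [hu, Nat.le_div_iff_mul_le hN0, mul_comm]
    exact hJ
  have hu1 : 1 ≤ J / N := by rw [← hu]; omega
  have huN : N * u ≤ J := by rw [hu]; exact Nat.mul_div_le J N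
  have hJN : J ≤ 2 * N * u := by
    have h7 : J < N * (u + 1) := by
      rw [hu]
      exact Nat.lt_mul_div_succ J hN0
    have h8 : N * 1 ≤ N * u := Nat.mul_le_mul_left N (by omega)
    nlinarith only [h7, h8]
  have hww' : v' ≤ v := by omega
  have hau : a * u ≤ ρ * u := Nat.mul_le_mul_right u (haa.trans haρ)
  have hρu : ρ * u ≤ N * u := Nat.mul_le_mul_right u hρN
  rw [← hu] at hv hv' hvv hva
  have hvJ : v ≤ J := by omega
  have hv'J : v' ≤ J := by omega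
  have ha'u : a * u ≤ a' * u := Nat.mul_le_mul_right u haa
  have hq' : (a' + 2) * u ≤ v' + q * u := by
    have h7 : (a' + 2) * u ≤ (w' + q) * u := Nat.mul_le_mul_right u (by omega)
    rw [Nat.add_mul w' q u] at h7
    omega
  have hqa : (a + 2) * u ≤ v + q * u := by
    have h7 : (a + 2) * u ≤ (a' + 2) * u := Nat.mul_le_mul_right u (by omega)
    omega
  have hcoef' := hcoef J F d i₁ N ρ p A a w v q hd hwa (haa.trans haρ)
    (by rw [← hu]; exact hv) (by rw [← hu]; exact hva) hvJ (by rw [← hu]; exact hqa)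
  have hhgt' := hhgt J F d i₁ N ρ p A (Qa F A) R a' w' v' q v hd hQ hQA hu1
    (hww.trans (hwa.trans haa)) haρ (by rw [← hu]; exact hv')
    (by rw [← hu]; omega) hv'J hvJ (by rw [← hu]; exact hq') hRp'
  -- the bound of the digits
  have hR : R ≤ N := by omega
  have hbd : Real.log (2 * (2 * (2 ^ (R * (J / N)) *
      (C₂ * 2 ^ (K * ((a + 1) * (J / N) + 1)))) + 1) + 1) ≤
      A₀ * (((J - v : ℕ) : ℝ) * Real.log 2) := by
    rw [← hu]
    obtain ⟨E, hE⟩ : ∃ E, E = R * u + K * ((a + 1) * u + 1) := ⟨_, rfl⟩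
    have e1 : (2 : ℝ) ^ (R * u) * (C₂ * 2 ^ (K * ((a + 1) * u + 1))) = C₂ * 2 ^ E := by
      rw [hE, pow_add]
      ring
    rw [e1]
    have hE1 : (1 : ℝ) ≤ 2 ^ E := one_le_pow₀ (by norm_num)
    have e2 : 2 * (2 * (C₂ * 2 ^ E) + 1) + 1 ≤ 7 * C₂ * 2 ^ E := by nlinarith only [hC₂, hE1]
    have e3 : Real.log (2 * (2 * (C₂ * 2 ^ E) + 1) + 1) ≤ Real.log (7 * C₂) +
        E * Real.log 2 := by
      refine (Real.log_le_log (by positivity) e2).trans (le_of_eq ?_)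
      rw [Real.log_mul (by positivity) (by positivity), Real.log_pow]
    have hur : (1 : ℝ) ≤ u := by
      have : 1 ≤ u := by omega
      exact_mod_cast this
    have e4 : (E : ℝ) ≤ (1 + 3 * K) * (N * u) := by
      have f1 : R * u ≤ N * u := Nat.mul_le_mul_right u hR
      have f2 : (a + 1) * u + 1 ≤ 3 * (N * u) := by
        have g1 : a ≤ N := (haa.trans haρ).trans hρN
        have g2 : (a + 1) * u ≤ (N + N) * u := Nat.mul_le_mul_right u (by omega)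
        have g3 : 1 * 1 ≤ N * u := Nat.mul_le_mul hN0 (by omega)
        nlinarith only [g2, g3]
      have f3 : E ≤ N * u + K * (3 * (N * u)) := by
        rw [hE]
        exact Nat.add_le_add f1 (Nat.mul_le_mul_left K f2)
      have f4 : (E : ℝ) ≤ ((N * u + K * (3 * (N * u)) : ℕ) : ℝ) := by exact_mod_cast f3
      push_cast at f4
      linarith only [f4]
    have hNu : (1 : ℝ) ≤ N * u := by nlinarith only [hNr, hur]
    have e5 : Real.log (7 * C₂) + E * Real.log 2 ≤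
        (Real.log (7 * C₂) / Real.log 2 + 1 + 3 * K) * (N * u) * Real.log 2 := by
      have f1 : Real.log (7 * C₂) ≤ Real.log (7 * C₂) * (N * u) :=
        le_mul_of_one_le_right hl7 hNu
      have f2 : (E : ℝ) * Real.log 2 ≤ (1 + 3 * K) * (N * u) * Real.log 2 :=
        mul_le_mul_of_nonneg_right e4 hlog.le
      have f3 : (Real.log (7 * C₂) / Real.log 2 + 1 + 3 * K) * (N * u) * Real.log 2 =
          Real.log (7 * C₂) * (N * u) + (1 + 3 * K) * (N * u) * Real.log 2 := by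
        field_simp
        ring
      linarith only [f1, f2, f3]
    have e6 : X * (N * u) ≤ ((J - v : ℕ) : ℝ) := by
      rw [Nat.cast_sub hvJ]
      have f1 : (v : ℝ) ≤ ρ * u := by
        have : v ≤ ρ * u := by omega
        exact_mod_cast this
      have f2 : ((ρ : ℝ) + X * N) * u ≤ N * u :=
        mul_le_mul_of_nonneg_right hXN (by linarith only [hur])
      have f3 : (N : ℝ) * u ≤ J := by exact_mod_cast huN
      nlinarith only [f1, f2, f3]
    have e7 : (Real.log (7 * C₂) / Real.log 2 + 1 + 3 * K) * (N * u) * Real.log 2 =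
        A₀ * ((X * (N * u)) * Real.log 2) := by
      rw [hA₀]
      field_simp
    refine e3.trans (e5.trans ?_)
    rw [e7]
    exact mul_le_mul_of_nonneg_left (mul_le_mul_of_nonneg_right e6 hlog.le) hA0
  have hC0 : (1 + M : ℝ) = 1 + (mons (k + 1) K).card := by rw [hM]
  have hnear : ∀ ω, 0 < Qa F A ω → SLP.NearB F i₁ ((a + 2) * (J / N)) v (q * (J / N)) K
      (R * (J / N)) (R * (J / N)) (1 + M) (own F N ρ d a) (d.H a v) ω := by
    intro ω hω
    rw [hC0]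
    exact ok_near hd hu1 hwa (haa.trans haρ) (by rw [← hu]; exact hv) (by rw [← hu]; exact hva)
      hvJ (by rw [← hu]; exact hqa) hRp ω (hQA ω hω)
  have hnear' : ∀ ω, 0 < Qa F A ω → SLP.NearB F i₁ ((a' + 2) * (J / N)) v' (q * (J / N)) K
      (R * (J / N)) (R * (J / N)) (1 + M) (own F N ρ d a') (d.H a' v') ω := by
    intro ω hω
    rw [hC0]
    exact ok_near hd hu1 (hww.trans (hwa.trans haa)) haρ (by rw [← hu]; exact hv')
      (by rw [← hu]; omega) hv'J (by rw [← hu]; exact hq') hRp' ω (hQA ω hω)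
  have h7 := hnest J F i₁ (Qa F A) ((a + 2) * (J / N)) v ((a' + 2) * (J / N)) v' (q * (J / N))
    (R * (J / N)) (C₂ * 2 ^ (K * ((a + 1) * (J / N) + 1))) A₀ (η * J) (own F N ρ d a)
    (own F N ρ d a') (d.H a v) (d.H a' v') (hgt i₁ v) hQ hvJ hww'
    (Nat.mul_le_mul_right _ (by omega)) (by rw [← hu]; exact hq') (fun ω _ => hd.dG _ _)
    (fun ω _ => hd.dG _ _) (fun s => hd.dH _ _ _) hnear hnear'
    (fun ω hω s => hcoef' ω (hQA ω hω) s) hT (by positivity) hA0 hbd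
  obtain ⟨Z, hZ⟩ : ∃ Z : ℝ, Z = ((((a' - a) + x) * (J / N) : ℕ) : ℝ) := ⟨_, rfl⟩
  rw [← hZ] at h6 ⊢
  have h8 : CH (Qa F A) (SLP.bxs F i₁ ((a + 2) * (J / N)) (R * (J / N)) K (own F N ρ d a) 0)
      (SLP.bxs F i₁ ((a' + 2) * (J / N)) (R * (J / N)) K (own F N ρ d a') 0) ≤
      ε / (4 * (K + 1)) * Z := h6
  have h9 : CH (Qa F A) (cx F i₁ N q d R a v) (fun ω => (cx F i₁ N q d R a' v' ω, F.W ω)) ≤
      C₃ + (K + 1) * (ε / (4 * (K + 1)) * Z) + C₁ * ((1 + A₀) * (1 + η * J)) := by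
    refine le_trans h7 (add_le_add (add_le_add hhgt' ?_) le_rfl)
    exact mul_le_mul_of_nonneg_left h8 (by positivity)
  refine h9.trans ?_
  have hZu : (u : ℝ) ≤ Z := by
    rw [hZ, ← hu]
    have : 1 * u ≤ (a' - a + x) * u := Nat.mul_le_mul_right u (by omega)
    rw [one_mul] at this
    exact_mod_cast this
  have hZ0 : 0 ≤ Z := le_trans (Nat.cast_nonneg u) hZu
  have k1 : (K + 1 : ℝ) * (ε / (4 * (K + 1)) * Z) = ε / 4 * Z := by
    field_simp
  have k2 : C₁ * ((1 + A₀) * (1 + η * J)) = D + D * (η * J) := by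
    rw [hD]
    ring
  have k3 : D * (η * J) ≤ ε / 4 * Z := by
    have f1 : (J : ℝ) ≤ 2 * N * u := by exact_mod_cast hJN
    have f2 : D * (η * J) = ε / (8 * N) * J := by
      rw [hη]
      field_simp
    rw [f2]
    have f3 : ε / (8 * N) * J ≤ ε / (8 * N) * (2 * N * u) :=
      mul_le_mul_of_nonneg_left f1 (by positivity)
    have f4 : ε / (8 * N) * (2 * N * u) = ε / 4 * u := by
      field_simp
      ring
    have f5 : ε / 4 * (u : ℝ) ≤ ε / 4 * Z := mul_le_mul_of_nonneg_left hZu (by positivity)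
    linarith only [f3, f4, f5]
  have k4 : C₃ + D ≤ ε / 4 * Z := by
    have f1 : (u₀ : ℝ) ≤ u := by
      have : u₀ ≤ u := by omega
      exact_mod_cast this
    rw [div_lt_iff₀ hε] at hu₀
    have f2 : ε * u₀ ≤ ε * Z := mul_le_mul_of_nonneg_left (f1.trans hZu) hε.le
    linarith only [hu₀, f2]
  rw [k1, k2]
  have hεZ : 0 ≤ ε * Z := mul_nonneg hε.le hZ0
  linarith only [hC₃, hD0, k3, k4]

end Pool.SLF
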